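import Pool.Agent.TH67.FH.Core

/-! # The dyadic blocks of the Flint Hills series -/

open Finset Real

namespace Pool.Agent.TH67.FH

/-- the terms of the Flint Hills series -/
noncomputable def a (n : ℕ) : ℝ := 1 / ((n : ℝ) ^ 3 * Real.sin n ^ 2)

theorem a_nonneg (n : ℕ) : 0 ≤ a n := by unfold a; positivity

/-- the nearest multiple of `π` -/
noncomputable def kk (n : ℕ) : ℕ := ⌊(n : ℝ) / π + 1 / 2⌋₊

theorem kk_near (n : ℕ) : |(n : ℝ) - kk n * π| ≤ π / 2 := by
  have h0 : (0 : ℝ) ≤ (n : ℝ) / π + 1 / 2 := by positivity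
  have h1 := Nat.floor_le h0
  have h2 := Nat.lt_floor_add_one ((n : ℝ) / π + 1 / 2)
  have hπ := pi_pos
  have h3 : ((kk n : ℕ) : ℝ) * π ≤ n + π / 2 := by
    have := mul_le_mul_of_nonneg_right h1 hπ.le
    have e : ((n : ℝ) / π + 1 / 2) * π = n + π / 2 := by field_simp
    rw [e] at this
    exact this
  have h4 : (n : ℝ) + π / 2 ≤ ((kk n : ℕ) : ℝ) * π + π := by
    have := mul_le_mul_of_nonneg_right h2.le hπ.le
    have e : ((n : ℝ) / π + 1 / 2) * π = n + π / 2 := by field_simp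
    rw [e, add_mul, one_mul] at this
    exact this
  rw [abs_le]
  constructor <;> linarith

theorem kk_pos (n : ℕ) (hn : 2 ≤ n) : 1 ≤ kk n := by
  apply Nat.le_floor
  have h1 : (2 : ℝ) ≤ n := by exact_mod_cast hn
  have h2 := pi_pos
  have h3 := pi_lt_four
  have h4 : (1 : ℝ) / 2 ≤ (n : ℝ) / π := by
    rw [div_le_div_iff₀ (by norm_num) h2]
    linarith
  push_cast
  linarith

theorem pi_ne (k : ℕ) (hk : 1 ≤ k) (z : ℤ) : (k : ℝ) * π - z ≠ 0 := by
  intro h
  have h1 := irrational_pi.natCast_mul (m := k) (by omega)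
  exact h1 ⟨z, by push_cast; linarith⟩

theorem x_ne (n : ℕ) (hn : 2 ≤ n) : (n : ℝ) - kk n * π ≠ 0 := by
  have h := pi_ne (kk n) (kk_pos n hn) n
  intro h1
  apply h
  push_cast
  linarith

theorem kk_le (n : ℕ) : (kk n : ℝ) ≤ n ∨ n ≤ 1 := by
  by_cases hn : n ≤ 1
  · exact Or.inr hn
  left
  have h1 := (abs_le.mp (kk_near n)).1
  have h2 := kk_pos n (by omega)
  have h3 : (1 : ℝ) ≤ kk n := by exact_mod_cast h2
  have h4 := pi_gt_three
  nlinarith

/-- the terms in terms of the distance to the nearest multiple of `π` -/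
theorem a_le (n X : ℕ) (hn : 2 ≤ n) (hX : 1 ≤ X) (h : X ≤ kk n) :
    a n ≤ 3 / (X : ℝ) ^ 3 * (1 / ((n : ℝ) - kk n * π) ^ 2) := by
  have hx := x_ne n hn
  have hX0 : (1 : ℝ) ≤ X := by exact_mod_cast hX
  have hXn : (X : ℝ) ≤ n := by
    rcases kk_le n with h1 | h1
    · exact le_trans (by exact_mod_cast h) h1
    · omega
  have hπ := pi_pos
  have h1 : 2 / π * |(n : ℝ) - kk n * π| ≤ |Real.sin n| := by
    have := Real.mul_abs_le_abs_sin (kk_near n)
    rwa [Real.sin_sub_nat_mul_pi, abs_mul, abs_pow, abs_neg, abs_one, one_pow, one_mul] at this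
  have h2 : 4 / π ^ 2 * ((n : ℝ) - kk n * π) ^ 2 ≤ Real.sin n ^ 2 := by
    have := pow_le_pow_left₀ (by positivity) h1 2
    rw [sq_abs, mul_pow, sq_abs, div_pow] at this
    norm_num at this ⊢
    exact this
  have hx2 : 0 < ((n : ℝ) - kk n * π) ^ 2 := by positivity
  have h3 : 1 / 3 * ((n : ℝ) - kk n * π) ^ 2 ≤ Real.sin n ^ 2 := by
    refine le_trans (mul_le_mul_of_nonneg_right ?_ hx2.le) h2
    rw [div_le_div_iff₀ (by norm_num) (by positivity)]
    nlinarith [pi_lt_d2]
  have h4 : (X : ℝ) ^ 3 ≤ (n : ℝ) ^ 3 := pow_le_pow_left₀ (by positivity) hXn 3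
  have hX3 : (0 : ℝ) < (X : ℝ) ^ 3 := by positivity
  unfold a
  rw [div_mul_div_comm, mul_one, div_le_div_iff₀ (by
    have : 0 < Real.sin n ^ 2 := lt_of_lt_of_le (by positivity) h3
    have : (0 : ℝ) < (n : ℝ) ^ 3 := lt_of_lt_of_le hX3 h4
    positivity) (by positivity), one_mul]
  calc (X : ℝ) ^ 3 * ((n : ℝ) - kk n * π) ^ 2 ≤ (n : ℝ) ^ 3 * (3 * Real.sin n ^ 2) :=
        mul_le_mul h4 (by linarith) hx2.le (by positivity)
    _ = _ := by ring

/-- distance to the nearest integer of `k π` -/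
noncomputable def d (k : ℕ) : ℝ := |(k : ℝ) * π - round ((k : ℝ) * π)|

theorem d_le (k : ℕ) (z : ℤ) : d k ≤ |(k : ℝ) * π - z| := round_le _ _

theorem d_pos (k : ℕ) (hk : 1 ≤ k) : 0 < d k := abs_pos.mpr (pi_ne k hk _)

/-- The best approximation and the blocks. -/
theorem block (X : ℕ) (hX : 1 ≤ X) : ∃ q p : ℕ, 1 ≤ q ∧ q ≤ 2 * X ∧ Nat.Coprime p q ∧
    0 < |(q : ℝ) * π - p| ∧ |(q : ℝ) * π - p| ≤ 1 / 2 ∧
    ∀ T : Finset ℕ, (∀ n ∈ T, 2 ≤ n ∧ X ≤ kk n ∧ kk n < 2 * X) →
      (∑ n ∈ T, a n ≤ 49152 * Z / X + 3 * Z / ((X : ℝ) ^ 3 * |(q : ℝ) * π - p| ^ 2)) ∧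
      ((∀ n ∈ T, n * q ≠ kk n * p) → ∑ n ∈ T, a n ≤ 49152 * Z / X) := by
  have hX0 : (0 : ℝ) < X := by exact_mod_cast hX
  have hZ := Z_nonneg
  obtain ⟨q, hq, hmin⟩ := Finset.exists_min_image (Finset.Icc 1 (2 * X)) d
    ⟨1, Finset.mem_Icc.mpr ⟨le_rfl, by omega⟩⟩
  rw [Finset.mem_Icc] at hq
  obtain ⟨hq1, hq2⟩ := hq
  have hpnn : 0 ≤ round ((q : ℝ) * π) := by
    rw [round_eq]
    apply Int.floor_nonneg.mpr
    positivity
  obtain ⟨p, hp⟩ := Int.eq_ofNat_of_zero_le hpnn
  have hd : d q = |(q : ℝ) * π - p| := by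
    unfold d
    rw [hp]
    simp
  have hcop : Nat.Coprime p q := by
    by_contra hcon
    obtain ⟨g, hg, ⟨p', hp'⟩, ⟨q', hq'⟩⟩ := Nat.Prime.not_coprime_iff_dvd.mp hcon
    have hg2 := hg.two_le
    have hq'1 : 1 ≤ q' := by
      rcases Nat.eq_zero_or_pos q' with h | h
      · rw [h, mul_zero] at hq'; omega
      · exact h
    have hq'2 : q' ≤ 2 * X := by nlinarith
    have h1 := hmin q' (Finset.mem_Icc.mpr ⟨hq'1, hq'2⟩)
    have h2 := d_le q' p'
    have h3 := d_pos q hq1
    have h4 : d q = g * |(q' : ℝ) * π - p'| := by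
      rw [hd, hp', hq']
      push_cast
      rw [← Nat.abs_cast g, ← abs_mul, Nat.abs_cast]
      congr 1
      ring
    have hg2' : (2 : ℝ) ≤ g := by exact_mod_cast hg2
    push_cast at h2
    nlinarith [abs_nonneg ((q' : ℝ) * π - p')]
  have hη : 0 < |(q : ℝ) * π - p| := hd ▸ d_pos q hq1
  refine ⟨q, p, hq1, hq2, hcop, hη, ?_, ?_⟩
  · rw [← hd]; exact abs_sub_round _
  intro T hT
  have hsum : ∀ S : Finset ℕ, S ⊆ T → ∑ n ∈ S, a n ≤
      3 / (X : ℝ) ^ 3 * ∑ n ∈ S, 1 / ((n : ℝ) - kk n * π) ^ 2 := by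
    intro S hS
    rw [Finset.mul_sum]
    exact Finset.sum_le_sum fun n hn => a_le n X (hT n (hS hn)).1 hX (hT n (hS hn)).2.1
  by_cases hcase : |(q : ℝ) * π - p| * (64 * X) < 1
  · -- the points off the line
    have hoff : ∑ n ∈ T.filter (fun n : ℕ => (n : ℤ) * q - kk n * p ≠ 0), a n ≤ 49152 * Z / X := by
      refine (hsum _ (Finset.filter_subset _ _)).trans ?_
      have h1 := off (T.filter (fun n : ℕ => (n : ℤ) * q - kk n * p ≠ 0)) kk q p X hq1 hX hq2 hcop hcase
        (fun n hn => (hT n (Finset.mem_filter.mp hn).1).2.2)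
        (fun n hn => (Finset.mem_filter.mp hn).2)
      refine (mul_le_mul_of_nonneg_left h1 (by positivity)).trans ?_
      have e : 3 / (X : ℝ) ^ 3 * (32 * (X : ℝ) ^ 2 * Z) = 96 * Z / X := by field_simp; ring
      rw [e]
      exact div_le_div_of_nonneg_right (by nlinarith) hX0.le
    constructor
    · rw [← Finset.sum_filter_add_sum_filter_not T (fun n : ℕ => (n : ℤ) * q - kk n * p ≠ 0)]
      refine add_le_add hoff ?_
      refine (hsum _ (Finset.filter_subset _ _)).trans ?_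
      have h1 := online (T.filter (fun n : ℕ => ¬ ((n : ℤ) * q - kk n * p ≠ 0))) kk q p hq1 hcop hη
        (fun n hn => le_trans hX (hT n (Finset.mem_filter.mp hn).1).2.1)
        (fun n hn => not_not.mp (Finset.mem_filter.mp hn).2)
      refine (mul_le_mul_of_nonneg_left h1 (by positivity)).trans ?_
      apply le_of_eq
      field_simp
    · intro hnd
      have e : T.filter (fun n : ℕ => (n : ℤ) * q - kk n * p ≠ 0) = T := by
        apply Finset.filter_true_of_mem
        intro n hn h0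
        apply hnd n hn
        have : (n : ℤ) * q = kk n * p := by linarith
        exact_mod_cast this
      rw [e] at hoff
      exact hoff
  · -- separated points
    push Not at hcase
    have hmain : ∑ n ∈ T, a n ≤ 49152 * Z / X := by
      refine (hsum T subset_rfl).trans ?_
      have h1 := sep T (fun n => (n : ℝ) - kk n * π) (d q) (d_pos q hq1) (by
        intro n hn
        obtain ⟨h2, h3, h4⟩ := hT n hn
        refine (hmin (kk n) (Finset.mem_Icc.mpr ⟨by omega, by omega⟩)).trans ?_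
        have := d_le (kk n) n
        rw [abs_sub_comm] at this
        exact_mod_cast this) (by
        intro n hn m hm hne
        obtain ⟨h2, h3, h4⟩ := hT n hn
        obtain ⟨h5, h6, h7⟩ := hT m hm
        rcases lt_trichotomy (kk n) (kk m) with h | h | h
        · refine (hmin (kk m - kk n) (Finset.mem_Icc.mpr ⟨by omega, by omega⟩)).trans ?_
          refine (d_le (kk m - kk n) ((m : ℤ) - n)).trans (le_of_eq ?_)
          congr 1
          push_cast [Nat.cast_sub h.le]
          ring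
        · have h8 : (1 : ℝ) ≤ |(n : ℝ) - kk n * π - ((m : ℝ) - kk m * π)| := by
            rw [h]
            have e : (n : ℝ) - kk m * π - ((m : ℝ) - kk m * π) = (((n : ℤ) - m : ℤ) : ℝ) := by
              push_cast; ring
            have h10 : ((n : ℤ) - m) ≠ 0 := by omega
            rw [e, ← Int.cast_abs]
            exact_mod_cast Int.one_le_abs h10
          have h9 : d q ≤ 1 / 2 := abs_sub_round _
          linarith
        · refine (hmin (kk n - kk m) (Finset.mem_Icc.mpr ⟨by omega, by omega⟩)).trans ?_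
          refine (d_le (kk n - kk m) ((n : ℤ) - m)).trans (le_of_eq ?_)
          rw [abs_sub_comm]
          congr 1
          push_cast [Nat.cast_sub h.le]
          ring)
      refine (mul_le_mul_of_nonneg_left h1 (by positivity)).trans ?_
      rw [hd]
      have h2 : 1 / |(q : ℝ) * π - p| ^ 2 ≤ (64 * X) ^ 2 := by
        rw [div_le_iff₀ (by positivity), ← mul_pow, mul_comm]
        exact one_le_pow₀ hcase
      have e : 3 / (X : ℝ) ^ 3 * (4 / |(q : ℝ) * π - p| ^ 2 * Z) =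
          12 * Z / (X : ℝ) ^ 3 * (1 / |(q : ℝ) * π - p| ^ 2) := by field_simp; ring
      rw [e]
      refine (mul_le_mul_of_nonneg_left h2 (by positivity)).trans (le_of_eq ?_)
      field_simp
      ring
    exact ⟨hmain.trans (le_add_of_nonneg_right (by positivity)), fun _ => hmain⟩

end Pool.Agent.TH67.FH
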