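import Pool.Agent.TH67.FH.Pi

/-! # The Cookson Hills series -/

open Finset Real Filter Pool.Agent.TH67.RP

namespace Pool.Agent.TH67.FH

/-- the terms of the Cookson Hills series -/
noncomputable def b (n : ℕ) : ℝ := 1 / ((n : ℝ) ^ 3 * Real.cos n ^ 2)

theorem b_nonneg (n : ℕ) : 0 ≤ b n := by unfold b; positivity

theorem sin_ne (n : ℕ) (hn : 1 ≤ n) : Real.sin n ≠ 0 := by
  intro h
  rw [Real.sin_eq_zero_iff] at h
  obtain ⟨k, hk⟩ := h
  have hn' : (1 : ℝ) ≤ n := by exact_mod_cast hn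
  have hk0 : k ≠ 0 := by
    rintro rfl
    rw [Int.cast_zero, zero_mul] at hk
    linarith
  exact irrational_pi.intCast_mul hk0 ⟨n, by push_cast; linarith⟩

theorem sin_two (n : ℕ) : Real.sin ((2 * n : ℕ) : ℝ) ^ 2 =
    4 * (Real.sin n ^ 2 * Real.cos n ^ 2) := by
  push_cast
  rw [Real.sin_two_mul]
  ring

theorem cos_ne (n : ℕ) : Real.cos n ≠ 0 := by
  intro h
  rcases Nat.eq_zero_or_pos n with h0 | h0
  · rw [h0] at h
    norm_num at h
  · have h1 := sin_ne (2 * n) (by omega)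
    apply h1
    push_cast
    rw [Real.sin_two_mul, h, mul_zero]

theorem b_le (n : ℕ) : b n ≤ 32 * a (2 * n) := by
  rcases Nat.eq_zero_or_pos n with h0 | h0
  · rw [h0]; unfold a b; norm_num
  have hn : (0 : ℝ) < n := by exact_mod_cast h0
  have hs : 0 < Real.sin n ^ 2 := by
    have := sin_ne n h0
    positivity
  have hc : 0 < Real.cos n ^ 2 := by
    have := cos_ne n
    positivity
  have hs1 : Real.sin n ^ 2 ≤ 1 := Real.sin_sq_le_one _
  unfold a b
  rw [sin_two]
  push_cast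
  rw [mul_one_div, div_le_div_iff₀ (by positivity) (by positivity), one_mul]
  have h3 : (0 : ℝ) < (n : ℝ) ^ 3 * Real.cos n ^ 2 := by positivity
  have e : (2 * (n : ℝ)) ^ 3 * (4 * (Real.sin n ^ 2 * Real.cos n ^ 2)) =
      32 * ((n : ℝ) ^ 3 * Real.cos n ^ 2) * Real.sin n ^ 2 := by ring
  rw [e]
  calc 32 * ((n : ℝ) ^ 3 * Real.cos n ^ 2) * Real.sin n ^ 2 ≤
        32 * ((n : ℝ) ^ 3 * Real.cos n ^ 2) * 1 := mul_le_mul_of_nonneg_left hs1 (by positivity)
    _ = _ := by ring

theorem b_le_even (n : ℕ) (h : Even (kk (2 * n))) : b n ≤ 2 * (1 / (n : ℝ) ^ 3) := by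
  obtain ⟨j, hj⟩ := h
  have h1 := kk_near (2 * n)
  rw [hj] at h1
  push_cast at h1
  have h2 : |(n : ℝ) - j * π| ≤ π / 4 := by
    have e : 2 * (n : ℝ) - (j + j) * π = 2 * ((n : ℝ) - j * π) := by ring
    rw [e, abs_mul, abs_of_pos (by norm_num : (0 : ℝ) < 2)] at h1
    linarith
  have h3 : Real.cos n ^ 2 = Real.cos ((n : ℝ) - j * π) ^ 2 := by
    rw [Real.cos_sub_nat_mul_pi, mul_pow, ← pow_mul, mul_comm j 2, pow_mul]
    norm_num
  have h4 : (1 / 2 : ℝ) ≤ Real.cos n ^ 2 := by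
    rw [h3, ← Real.cos_abs]
    have h5 : Real.cos (π / 4) ≤ Real.cos |(n : ℝ) - j * π| :=
      Real.cos_le_cos_of_nonneg_of_le_pi (abs_nonneg _) (by linarith [pi_pos]) h2
    rw [Real.cos_pi_div_four] at h5
    have h6 : (√2 / 2) ^ 2 = (1 / 2 : ℝ) := by
      rw [div_pow, Real.sq_sqrt (by norm_num)]; norm_num
    rw [← h6]
    exact pow_le_pow_left₀ (by positivity) h5 2
  rcases Nat.eq_zero_or_pos n with h0 | h0
  · rw [h0]; unfold b; norm_num
  have hn : (0 : ℝ) < n := by exact_mod_cast h0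
  unfold b
  rw [mul_one_div, div_le_div_iff₀ (by positivity) (by positivity), one_mul]
  have h7 : (0 : ℝ) < (n : ℝ) ^ 3 := by positivity
  nlinarith [mul_le_mul_of_nonneg_left h4 h7.le]

/-- the terms at the halves of very good even numerators -/
theorem a_le_b (n q : ℕ) (hg : Good (2 * n) q) : a (2 * n) ≤ b n := by
  have hlin := hg.lin
  obtain ⟨hq1, hcop, _⟩ := hg
  have hqodd : Odd q := by
    rw [← Nat.not_even_iff_odd]
    intro he
    have : 2 ∣ Nat.gcd (2 * n) q := Nat.dvd_gcd ⟨n, rfl⟩ he.two_dvd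
    rw [hcop] at this
    omega
  obtain ⟨j, hj⟩ := hqodd
  have h0 : 1 ≤ n := by
    by_contra hcon
    have : n = 0 := by omega
    rw [this] at hlin
    have hq' : (1 : ℝ) ≤ q := by exact_mod_cast hq1
    have := (abs_lt.mp hlin).2
    push_cast at this
    nlinarith [pi_gt_three]
  have hn : (0 : ℝ) < n := by exact_mod_cast h0
  -- |cos n| ≤ 1/2
  have h1 : |Real.cos n| ≤ 1 / 2 := by
    have e1 : |Real.cos n| = |Real.sin ((n : ℝ) - q * π / 2)| := by
      have e2 : (n : ℝ) - q * π / 2 = ((n : ℝ) - j * π) - π / 2 := by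
        rw [hj]; push_cast; ring
      rw [e2, Real.sin_sub_pi_div_two, Real.cos_sub_nat_mul_pi, abs_neg, abs_mul, abs_pow,
        abs_neg, abs_one, one_pow, one_mul]
    rw [e1]
    refine Real.abs_sin_le_abs.trans ?_
    have e3 : (n : ℝ) - q * π / 2 = -(((q : ℝ) * π - (2 * n : ℕ)) / 2) := by push_cast; ring
    rw [e3, abs_neg, abs_div, abs_of_pos (by norm_num : (0 : ℝ) < 2)]
    linarith
  have h2 : Real.cos n ^ 2 ≤ 1 / 4 := by
    have := pow_le_pow_left₀ (abs_nonneg _) h1 2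
    rw [sq_abs] at this
    linarith
  have h3 : 3 / 4 ≤ Real.sin n ^ 2 := by
    have := Real.sin_sq_add_cos_sq (n : ℝ)
    linarith
  have hc : 0 < Real.cos n ^ 2 := by
    have := cos_ne n
    positivity
  have h4 : (0 : ℝ) < (n : ℝ) ^ 3 * Real.cos n ^ 2 := by positivity
  unfold a b
  rw [sin_two]
  push_cast
  refine one_div_le_one_div_of_le h4 ?_
  have e : (2 * (n : ℝ)) ^ 3 * (4 * (Real.sin n ^ 2 * Real.cos n ^ 2)) =
      32 * ((n : ℝ) ^ 3 * Real.cos n ^ 2) * Real.sin n ^ 2 := by ring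
  rw [e]
  nlinarith [mul_le_mul_of_nonneg_left h3 h4.le]

/-- points with an even coordinate `n` and an odd coordinate `kk n` -/
theorem line_parity (N q p : ℕ) (hcop : Nat.Coprime p q) (hline : N * q = kk N * p)
    (hN : Even N) (hk : Odd (kk N)) : ∃ m c : ℕ, p = 2 * m ∧ N = 2 * (m * c) := by
  have h1 : q ∣ kk N :=
    (Nat.coprime_comm.mp hcop).dvd_of_dvd_mul_right ⟨N, by rw [← hline]; ring⟩
  obtain ⟨c, hc⟩ := h1
  rw [hc] at hk hline
  have hq : Odd q := (Nat.odd_mul.mp hk).1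
  have hc' : Odd c := (Nat.odd_mul.mp hk).2
  have hq0 : 0 < q := hq.pos
  have h2 : N = c * p := by
    have : q * N = q * (c * p) := by rw [mul_comm q N, hline]; ring
    exact Nat.eq_of_mul_eq_mul_left hq0 this
  rw [h2] at hN
  have hp : Even p := by
    rcases Nat.even_mul.mp hN with h | h
    · exact absurd h (Nat.not_even_iff_odd.mpr hc')
    · exact h
  obtain ⟨m, hm⟩ := hp
  refine ⟨m, c, by omega, ?_⟩
  rw [h2, hm]; ring

/-- passing from `a` on the even numbers to `b` -/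
theorem transfer (U : Set ℕ)
    (h : Summable (fun N : {N : ℕ | ∃ n ∈ U, N = 2 * n ∧ Odd (kk N)} => a N)) :
    Summable (fun n : U => b n) := by
  have h1 := (summable_subtype_iff_indicator (f := a)
    (s := {N : ℕ | ∃ n ∈ U, N = 2 * n ∧ Odd (kk N)})).mp h
  have h2 := (h1.comp_injective (i := fun n : ℕ => 2 * n)
    (fun x y hxy => by simpa using hxy)).mul_left 32
  have h3 : Summable (fun n : ℕ => 2 * (1 / (n : ℝ) ^ 3)) :=
    (Real.summable_one_div_nat_pow.mpr (by norm_num)).mul_left 2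
  refine (summable_subtype_iff_indicator (f := b) (s := U)).mpr ?_
  refine Summable.of_nonneg_of_le (fun n => Set.indicator_nonneg (fun n _ => b_nonneg n) n) ?_
    (h2.add h3)
  intro n
  have h4 : 0 ≤ Set.indicator {N : ℕ | ∃ n ∈ U, N = 2 * n ∧ Odd (kk N)} a (2 * n) :=
    Set.indicator_nonneg (fun n _ => a_nonneg n) _
  have h5 : 0 ≤ 2 * (1 / (n : ℝ) ^ 3) := by positivity
  simp only [Function.comp]
  by_cases hn : n ∈ U
  · rw [Set.indicator_of_mem hn]
    rcases Nat.even_or_odd (kk (2 * n)) with he | ho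
    · have := b_le_even n he
      linarith
    · have h6 : 2 * n ∈ {N : ℕ | ∃ n ∈ U, N = 2 * n ∧ Odd (kk N)} := ⟨n, hn, rfl, ho⟩
      rw [Set.indicator_of_mem h6]
      have := b_le n
      linarith
  · rw [Set.indicator_of_notMem hn]
    linarith

theorem cookson (s : ℝ) (hs : 1 / 2 < s) (P : Finset (ℝ × ℝ)) (hP : ∀ x ∈ P, Adm x.1 x.2) :
    (Summable b ↔ Summable (fun m : {m : ℕ | 2 * m ∈ Ex s P} => b m)) ∧
    Summable (fun n : {n : ℕ | ∀ m, 2 * m ∈ Ex s P → ¬ m ∣ n} => b n) := by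
  obtain ⟨m₀, hm1, hm2, hm⟩ := manyPairs P hP
  have hmid := midSum s hs
  refine ⟨⟨fun h => h.subtype _, fun h => ?_⟩, ?_⟩
  · set Bad : ℕ → Prop := fun q => 3 ≤ q ∧ ∀ x ∈ P, (q : ℝ) ^ x.2 < (miss ⌊x.1 * Real.log q⌋₊ q : ℝ)
      with hBad
    set A : Set ℕ := {p | p ∈ Ex s P ∧ p ∈ Exc 1 Bad ∧ Even p} with hA
    have hAsum : Summable (fun p : A => a p) := by
      have hdiv : ∀ p : A, 2 * ((p : ℕ) / 2) = p := by
        intro p
        obtain ⟨r, hr⟩ := p.2.2.2
        omega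
      have hinj : Function.Injective (fun p : A =>
          (⟨(p : ℕ) / 2, by
            show 2 * ((p : ℕ) / 2) ∈ Ex s P
            rw [hdiv p]; exact p.2.1⟩ : {m : ℕ | 2 * m ∈ Ex s P})) := by
        intro p p' hpp
        simp only [Subtype.mk.injEq] at hpp
        have h1 := hdiv p
        have h2 := hdiv p'
        apply Subtype.ext
        omega
      refine Summable.of_nonneg_of_le (fun p => a_nonneg _) ?_ (h.comp_injective hinj)
      intro p
      simp only [Function.comp]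
      obtain ⟨q, hq, hcop, hap, _⟩ := p.2.2.1
      rw [Real.rpow_one] at hap
      have hg : Good (2 * ((p : ℕ) / 2)) q := by
        rw [hdiv p]
        exact ⟨hq, hcop, hap⟩
      have := a_le_b _ _ hg
      rwa [hdiv p] at this
    have h1 := transfer Set.univ (general 1 m₀ (by norm_num) hm1 hm2 Bad hm
      {N : ℕ | ∃ n ∈ (Set.univ : Set ℕ), N = 2 * n ∧ Odd (kk N)} (A ∪ Mid s)
      (summable_union _ _ hAsum hmid) (by
        rintro N ⟨n, _, hNn, hodd⟩ q p _ hcop _ hline hp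
        obtain ⟨m, c, hpm, _⟩ := line_parity N q p hcop hline ⟨n, by omega⟩ hodd
        rcases exc_cases s P p hp with h2 | h2
        · exact Or.inl ⟨h2, hp, ⟨m, by omega⟩⟩
        · exact Or.inr h2))
    have h2 := (summable_subtype_iff_indicator (f := b) (s := Set.univ)).mp h1
    rwa [Set.indicator_univ] at h2
  · refine transfer _ (general 1 m₀ (by norm_num) hm1 hm2 _ hm _ (Mid s) hmid ?_)
    rintro N ⟨n, hn, hNn, hodd⟩ q p _ hcop _ hline hp
    obtain ⟨m, c, hpm, hNm⟩ := line_parity N q p hcop hline ⟨n, by omega⟩ hodd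
    rcases exc_cases s P p hp with h | h
    · exfalso
      refine hn m (by rw [← hpm]; exact h) ⟨c, ?_⟩
      omega
    · exact h

end Pool.Agent.TH67.FH
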