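import Mathlib

/-! # Sums of `1 / (n - k π)^2` over dyadic blocks -/

open Finset Real

namespace Pool.Agent.TH67.FH

/-- `∑ 1 / m^2` over the nonzero integers -/
noncomputable def Z : ℝ := ∑' m : ℤ, 1 / (m : ℝ) ^ 2

theorem sumZ : Summable (fun m : ℤ => 1 / (m : ℝ) ^ 2) :=
  Real.summable_one_div_int_pow.mpr (by norm_num)

theorem Z_le (S : Finset ℤ) : ∑ m ∈ S, 1 / (m : ℝ) ^ 2 ≤ Z :=
  sumZ.sum_le_tsum S (fun m _ => by positivity)

theorem Z_nonneg : 0 ≤ Z := by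
  have := Z_le ∅
  simpa using this

/-- separated points -/
theorem sep {ι : Type*} [DecidableEq ι] (T : Finset ι) (x : ι → ℝ) (η : ℝ) (hη : 0 < η)
    (h1 : ∀ n ∈ T, η ≤ |x n|) (h2 : ∀ n ∈ T, ∀ m ∈ T, n ≠ m → η ≤ |x n - x m|) :
    ∑ n ∈ T, 1 / (x n) ^ 2 ≤ 4 / η ^ 2 * Z := by
  have hinj : Set.InjOn (fun n => ⌊x n / η⌋) T := by
    intro n hn m hm h
    by_contra hne
    have h3 := Int.abs_sub_lt_one_of_floor_eq_floor h
    rw [← sub_div, abs_div, abs_of_pos hη, div_lt_one hη] at h3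
    exact absurd (h2 n hn m hm hne) (not_le.mpr h3)
  have hterm : ∀ n ∈ T, 1 / (x n) ^ 2 ≤ 4 / η ^ 2 * (1 / ((⌊x n / η⌋ : ℤ) : ℝ) ^ 2) := by
    intro n hn
    set y := x n / η with hy
    have hxy : x n = y * η := by rw [hy]; field_simp
    have hy1 : 1 ≤ |y| := by
      rw [hy, abs_div, abs_of_pos hη, le_div_iff₀ hη, one_mul]
      exact h1 n hn
    have hfl := Int.floor_le y
    have hfl2 := Int.lt_floor_add_one y
    have hm0 : (0 : ℝ) < ((⌊y⌋ : ℤ) : ℝ) ^ 2 ∧ ((⌊y⌋ : ℤ) : ℝ) ^ 2 ≤ 4 * y ^ 2 := by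
      rcases le_abs.mp hy1 with h | h
      · have h4 : (1 : ℤ) ≤ ⌊y⌋ := Int.le_floor.mpr (by exact_mod_cast h)
        have h5 : (1 : ℝ) ≤ ((⌊y⌋ : ℤ) : ℝ) := by exact_mod_cast h4
        constructor
        · positivity
        · nlinarith
      · have h4 : ⌊y⌋ < 0 := by
          rw [Int.floor_lt]; push_cast; linarith
        have h5 : ((⌊y⌋ : ℤ) : ℝ) ≤ -1 := by exact_mod_cast (by omega : ⌊y⌋ ≤ -1)
        constructor
        · nlinarith
        · nlinarith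
    have hy0 : 0 < y ^ 2 := by nlinarith [sq_abs y]
    rw [hxy, div_mul_div_comm, div_le_div_iff₀ (by rw [mul_pow]; exact mul_pos hy0 (pow_pos hη 2))
      (mul_pos (pow_pos hη 2) hm0.1)]
    nlinarith [pow_pos hη 2, mul_le_mul_of_nonneg_left hm0.2 (pow_pos hη 2).le]
  calc ∑ n ∈ T, 1 / (x n) ^ 2 ≤ ∑ n ∈ T, 4 / η ^ 2 * (1 / ((⌊x n / η⌋ : ℤ) : ℝ) ^ 2) :=
        Finset.sum_le_sum hterm
    _ = 4 / η ^ 2 * ∑ m ∈ T.image (fun n => ⌊x n / η⌋), 1 / (m : ℝ) ^ 2 := by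
        rw [← Finset.mul_sum, Finset.sum_image hinj]
    _ ≤ 4 / η ^ 2 * Z := mul_le_mul_of_nonneg_left (Z_le _) (by positivity)

/-- points off the line of the best approximation -/
theorem off (T : Finset ℕ) (k : ℕ → ℕ) (q p X : ℕ) (hq : 1 ≤ q) (hX : 1 ≤ X) (hqX : q ≤ 2 * X)
    (hcop : Nat.Coprime p q) (hη : |(q : ℝ) * π - p| * (64 * X) < 1)
    (hk : ∀ n ∈ T, k n < 2 * X)
    (ht : ∀ n ∈ T, (n : ℤ) * q - k n * p ≠ 0) :
    ∑ n ∈ T, 1 / ((n : ℝ) - k n * π) ^ 2 ≤ 32 * (X : ℝ) ^ 2 * Z := by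
  set t : ℕ → ℤ := fun n => (n : ℤ) * q - k n * p with ht'
  have hq0 : (0 : ℝ) < q := by exact_mod_cast hq
  have hX0 : (0 : ℝ) < X := by exact_mod_cast hX
  have hinj : Set.InjOn (fun n => (t n, k n / q)) T := by
    intro n hn m hm h
    simp only [Prod.mk.injEq] at h
    obtain ⟨h1, h2⟩ := h
    have h3 : ((n : ℤ) - m) * q = ((k n : ℤ) - k m) * p := by
      simp only [ht'] at h1; linarith
    have h4 : (q : ℤ) ∣ (k n : ℤ) - k m := by
      have : (q : ℤ) ∣ ((k n : ℤ) - k m) * p := ⟨(n : ℤ) - m, by rw [← h3]; ring⟩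
      exact (Int.isCoprime_iff_gcd_eq_one.mpr (by
        rw [Int.gcd_natCast_natCast]; exact (Nat.coprime_comm.mp hcop))).dvd_of_dvd_mul_right this
    have h5 : k n = k m := by
      obtain ⟨c, hc⟩ := h4
      have h6 := Nat.div_add_mod (k n) q
      have h7 := Nat.div_add_mod (k m) q
      have h8 := Nat.mod_lt (k n) (by omega : q > 0)
      have h9 := Nat.mod_lt (k m) (by omega : q > 0)
      rw [h2] at h6
      have h10 : ((k n : ℤ) - k m) = ((k n % q : ℕ) : ℤ) - ((k m % q : ℕ) : ℤ) := by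
        have h6' : (q : ℤ) * ((k m / q : ℕ) : ℤ) + ((k n % q : ℕ) : ℤ) = k n := by exact_mod_cast h6
        have h7' : (q : ℤ) * ((k m / q : ℕ) : ℤ) + ((k m % q : ℕ) : ℤ) = k m := by exact_mod_cast h7
        linarith
      have hc0 : c = 0 := by
        have hlt : |(q : ℤ) * c| < q := by
          rw [← hc, h10, abs_lt]
          constructor <;> omega
        rw [abs_mul, Nat.abs_cast] at hlt
        have : |c| < 1 := by
          by_contra hcon
          push Not at hcon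
          nlinarith [Int.natCast_pos.mpr (show 0 < q by omega)]
        exact Int.abs_lt_one_iff.mp this
      rw [hc0, mul_zero] at hc
      omega
    rw [h5, sub_self, zero_mul] at h3
    have h11 : (n : ℤ) - m = 0 := by
      rcases mul_eq_zero.mp h3 with h | h
      · exact h
      · omega
    omega
  have hterm : ∀ n ∈ T, 1 / ((n : ℝ) - k n * π) ^ 2 ≤ 4 * (q : ℝ) ^ 2 * (1 / ((t n : ℤ) : ℝ) ^ 2) := by
    intro n hn
    have h0 : t n ≠ 0 := ht n hn
    have h1 : (1 : ℝ) ≤ |((t n : ℤ) : ℝ)| := by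
      rw [← Int.cast_abs]; exact_mod_cast Int.one_le_abs h0
    have hkn : (k n : ℝ) ≤ 2 * X := by exact_mod_cast (hk n hn).le
    have h2 : ((t n : ℤ) : ℝ) = q * ((n : ℝ) - k n * π) + k n * ((q : ℝ) * π - p) := by
      simp only [ht']; push_cast; ring
    have h3 : |((t n : ℤ) : ℝ)| ≤ q * |(n : ℝ) - k n * π| + k n * |(q : ℝ) * π - p| := by
      rw [h2]
      refine (abs_add_le _ _).trans ?_
      rw [abs_mul, abs_mul, Nat.abs_cast, Nat.abs_cast]
    have h4 : k n * |(q : ℝ) * π - p| ≤ 1 / 32 := by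
      have : (k n : ℝ) * |(q : ℝ) * π - p| ≤ 2 * X * |(q : ℝ) * π - p| :=
        mul_le_mul_of_nonneg_right hkn (abs_nonneg _)
      nlinarith
    have h5 : |((t n : ℤ) : ℝ)| ≤ 2 * (q * |(n : ℝ) - k n * π|) := by linarith
    have h6 : ((t n : ℤ) : ℝ) ^ 2 ≤ 4 * (q : ℝ) ^ 2 * ((n : ℝ) - k n * π) ^ 2 := by
      have := pow_le_pow_left₀ (abs_nonneg _) h5 2
      rw [sq_abs, mul_pow, mul_pow, sq_abs] at this
      linarith
    have h7 : 0 < ((t n : ℤ) : ℝ) ^ 2 := by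
      have := sq_abs ((t n : ℤ) : ℝ)
      nlinarith
    have h8 : 0 < ((n : ℝ) - k n * π) ^ 2 := by
      by_contra hcon
      push Not at hcon
      nlinarith [mul_nonneg (mul_nonneg (by norm_num : (0:ℝ) ≤ 4) (sq_nonneg (q : ℝ))) (sq_nonneg ((n : ℝ) - k n * π)), sq_nonneg ((n : ℝ) - k n * π), le_antisymm hcon (sq_nonneg _)]
    rw [mul_one_div, div_le_div_iff₀ h8 h7, one_mul]
    exact h6
  have hsub : T.image (fun n => (t n, k n / q)) ⊆ (T.image t) ×ˢ Finset.range (2 * X / q + 1) := by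
    intro z hz
    rw [Finset.mem_image] at hz
    obtain ⟨n, hn, rfl⟩ := hz
    rw [Finset.mem_product, Finset.mem_range]
    refine ⟨Finset.mem_image_of_mem _ hn, Nat.lt_succ_of_le (Nat.div_le_div_right (hk n hn).le)⟩
  have hcount : ((2 * X / q + 1 : ℕ) : ℝ) ≤ 4 * X / q := by
    have h1 : ((2 * X / q : ℕ) : ℝ) ≤ ((2 * X : ℕ) : ℝ) / q := Nat.cast_div_le
    have h2 : (1 : ℝ) ≤ 2 * X / q := by
      rw [le_div_iff₀ hq0, one_mul]; exact_mod_cast hqX
    push_cast at h1 ⊢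
    have h3 : (4 : ℝ) * X / q = 2 * X / q + 2 * X / q := by ring
    rw [h3]; linarith
  calc ∑ n ∈ T, 1 / ((n : ℝ) - k n * π) ^ 2
      ≤ ∑ n ∈ T, 4 * (q : ℝ) ^ 2 * (1 / ((t n : ℤ) : ℝ) ^ 2) := Finset.sum_le_sum hterm
    _ = 4 * (q : ℝ) ^ 2 * ∑ z ∈ T.image (fun n => (t n, k n / q)), 1 / ((z.1 : ℤ) : ℝ) ^ 2 := by
        rw [← Finset.mul_sum, Finset.sum_image hinj]
    _ ≤ 4 * (q : ℝ) ^ 2 * ∑ z ∈ (T.image t) ×ˢ Finset.range (2 * X / q + 1),
          1 / ((z.1 : ℤ) : ℝ) ^ 2 := by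
        refine mul_le_mul_of_nonneg_left ?_ (by positivity)
        exact Finset.sum_le_sum_of_subset_of_nonneg hsub (fun _ _ _ => by positivity)
    _ = 4 * (q : ℝ) ^ 2 * (((2 * X / q + 1 : ℕ) : ℝ) * ∑ m ∈ T.image t, 1 / (m : ℝ) ^ 2) := by
        rw [Finset.sum_product]
        simp only [Finset.sum_const, Finset.card_range, nsmul_eq_mul]
        rw [← Finset.mul_sum]
    _ ≤ 4 * (q : ℝ) ^ 2 * (4 * X / q * Z) := by
        refine mul_le_mul_of_nonneg_left ?_ (by positivity)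
        exact mul_le_mul hcount (Z_le _) (Finset.sum_nonneg fun _ _ => by positivity) (by positivity)
    _ = 16 * q * X * Z := by field_simp; ring
    _ ≤ 32 * (X : ℝ) ^ 2 * Z := by
        have : (q : ℝ) ≤ 2 * X := by exact_mod_cast hqX
        refine mul_le_mul_of_nonneg_right ?_ Z_nonneg
        nlinarith

/-- points on the line of the best approximation -/
theorem online (T : Finset ℕ) (k : ℕ → ℕ) (q p : ℕ) (hq : 1 ≤ q) (hcop : Nat.Coprime p q)
    (hη : 0 < |(q : ℝ) * π - p|) (hk : ∀ n ∈ T, 1 ≤ k n)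
    (ht : ∀ n ∈ T, (n : ℤ) * q - k n * p = 0) :
    ∑ n ∈ T, 1 / ((n : ℝ) - k n * π) ^ 2 ≤ 1 / |(q : ℝ) * π - p| ^ 2 * Z := by
  have key : ∀ n ∈ T, ∃ c : ℕ, 1 ≤ c ∧ n = c * p ∧ k n = c * q := by
    intro n hn
    have h1 : n * q = k n * p := by
      have := ht n hn
      have h2 : (n : ℤ) * q = k n * p := by linarith
      exact_mod_cast h2
    have h2 : q ∣ k n := by
      have : q ∣ k n * p := ⟨n, by rw [← h1]; ring⟩
      exact (Nat.coprime_comm.mp hcop).dvd_of_dvd_mul_right this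
    obtain ⟨c, hc⟩ := h2
    refine ⟨c, ?_, ?_, ?_⟩
    · rcases Nat.eq_zero_or_pos c with h | h
      · rw [h, mul_zero] at hc
        have := hk n hn
        omega
      · exact h
    · rw [hc] at h1
      have : q * n = q * (c * p) := by rw [mul_comm q n, h1]; ring
      exact Nat.eq_of_mul_eq_mul_left (by omega) this
    · rw [hc]; ring
  choose! c hc1 hc2 hc3 using key
  have hinj : Set.InjOn (fun n => ((c n : ℕ) : ℤ)) T := by
    intro n hn m hm h
    have h' : c n = c m := by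
      simp only at h
      exact_mod_cast h
    rw [hc2 n hn, hc2 m hm, h']
  have hterm : ∀ n ∈ T, 1 / ((n : ℝ) - k n * π) ^ 2 =
      1 / |(q : ℝ) * π - p| ^ 2 * (1 / (((c n : ℕ) : ℤ) : ℝ) ^ 2) := by
    intro n hn
    have h1 : (n : ℝ) = c n * p := by exact_mod_cast hc2 n hn
    have h2 : (k n : ℝ) = c n * q := by exact_mod_cast hc3 n hn
    rw [h2]
    nth_rewrite 1 [h1]
    rw [sq_abs, div_mul_div_comm, one_mul]
    congr 1
    push_cast
    ring
  rw [Finset.sum_congr rfl hterm, ← Finset.mul_sum]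
  refine mul_le_mul_of_nonneg_left ?_ (by positivity)
  rw [← Finset.sum_image (f := fun m : ℤ => 1 / (m : ℝ) ^ 2) hinj]
  exact Z_le _

end Pool.Agent.TH67.FH
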