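import Pool.Agent.TH67.FH.Red

/-! # Very good approximations to `π` are lacunary -/

open Finset Real Filter

namespace Pool.Agent.TH67.FH

/-- reduced fractions with `|π - p / q| < log q / q ^ (5 / 2)` -/
def Good (p q : ℕ) : Prop :=
  1 ≤ q ∧ Nat.Coprime p q ∧ |π - p / q| < Real.log q / (q : ℝ) ^ (5 / 2 : ℝ)

theorem Good.lin {p q : ℕ} (h : Good p q) : |(q : ℝ) * π - p| < 1 := by
  obtain ⟨h1, _, h3⟩ := h
  have hq : (1 : ℝ) ≤ q := by exact_mod_cast h1
  have hq0 : (0 : ℝ) < q := by linarith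
  have e : |(q : ℝ) * π - p| = q * |π - p / q| := by
    rw [← abs_of_pos hq0, ← abs_mul, abs_of_pos hq0]
    congr 1
    field_simp
  have h4 : Real.log q < q := by
    have := Real.log_le_sub_one_of_pos hq0
    linarith
  have h5 : (q : ℝ) ^ (2 : ℕ) ≤ (q : ℝ) ^ (5 / 2 : ℝ) := by
    rw [← Real.rpow_natCast]
    exact Real.rpow_le_rpow_of_exponent_le hq (by norm_num)
  have h6 : 0 ≤ Real.log q := Real.log_nonneg hq
  rw [e]
  rw [lt_div_iff₀ (by positivity)] at h3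
  have h7 : |π - p / q| * (q : ℝ) ^ (2 : ℕ) < q :=
    lt_of_le_of_lt (mul_le_mul_of_nonneg_left h5 (abs_nonneg _)) (h3.trans h4)
  have h8 : (q * |π - p / q|) * q < 1 * q := by
    calc (q * |π - p / q|) * q = |π - p / q| * (q : ℝ) ^ (2 : ℕ) := by ring
      _ < q := h7
      _ = 1 * q := by ring
  exact lt_of_mul_lt_mul_right h8 hq0.le

/-- The gap principle. -/
theorem gap : ∃ q₀ : ℕ, 3 ≤ q₀ ∧ Real.log 1.3 ≤ Real.log (Real.log q₀) ∧
    ∀ p q p' q' : ℕ, q₀ ≤ q → Good p q → Good p' q' → p < p' → (q : ℝ) ^ (1.3 : ℝ) ≤ q' := by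
  have h1 : ∀ᶠ x : ℝ in atTop, Real.log x ≤ x ^ (0.1 : ℝ) := by
    filter_upwards [(isLittleO_log_rpow_atTop (by norm_num : (0 : ℝ) < 0.1)).bound
      (by norm_num : (0 : ℝ) < 1), eventually_ge_atTop 1] with x hx hx1
    rw [one_mul, Real.norm_eq_abs, Real.norm_eq_abs, abs_of_nonneg (Real.log_nonneg hx1),
      abs_of_nonneg (by positivity)] at hx
    exact hx
  have h2 : ∀ᶠ x : ℝ in atTop, 4 ≤ x ^ (0.1 : ℝ) :=
    (tendsto_rpow_atTop (by norm_num : (0 : ℝ) < 0.1)).eventually_ge_atTop 4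
  have h3 : ∀ᶠ x : ℝ in atTop, Real.log 1.3 ≤ Real.log (Real.log x) :=
    (Real.tendsto_log_atTop.comp Real.tendsto_log_atTop).eventually_ge_atTop _
  obtain ⟨x₀, hx₀⟩ := eventually_atTop.mp (h1.and (h2.and h3))
  refine ⟨max 3 ⌈x₀⌉₊, le_max_left _ _, ?_, ?_⟩
  · apply (hx₀ _ _).2.2
    exact (Nat.le_ceil x₀).trans (by exact_mod_cast le_max_right _ _)
  intro p q p' q' hq hg hg' hpp
  have hlin := hg.lin
  have hlin' := hg'.lin
  obtain ⟨hq1, hcop, hap⟩ := hg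
  obtain ⟨hq1', hcop', hap'⟩ := hg'
  have hq3 : 3 ≤ q := le_trans (le_max_left _ _) hq
  -- q ≤ q'
  have hqq : q ≤ q' := by
    by_contra hcon
    push Not at hcon
    have c1 : (q' : ℝ) + 1 ≤ q := by exact_mod_cast hcon
    have c2 : (p : ℝ) + 1 ≤ p' := by exact_mod_cast hpp
    have c3 := (abs_lt.mp hlin).2
    have c4 := (abs_lt.mp hlin').1
    nlinarith [pi_gt_three]
  have hx : x₀ ≤ (q : ℝ) := (Nat.le_ceil x₀).trans (by exact_mod_cast le_trans (le_max_right _ _) hq)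
  have hqq' : (q : ℝ) ≤ q' := by exact_mod_cast hqq
  obtain ⟨a1, a2, _⟩ := hx₀ q hx
  obtain ⟨b1, _, _⟩ := hx₀ q' (hx.trans hqq')
  have hq0 : (0 : ℝ) < q := by exact_mod_cast hq1
  have hq0' : (0 : ℝ) < q' := by exact_mod_cast hq1'
  have hqone : (1 : ℝ) ≤ q := by exact_mod_cast hq1
  have key : ∀ x : ℝ, 0 < x → Real.log x ≤ x ^ (0.1 : ℝ) →
      Real.log x / x ^ (5 / 2 : ℝ) ≤ x ^ (-2.4 : ℝ) := by
    intro x hx0 hxl
    rw [div_le_iff₀ (by positivity), ← Real.rpow_add hx0]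
    norm_num at hxl ⊢
    exact hxl
  have d1 := lt_of_lt_of_le hap (key q hq0 a1)
  have d2 := lt_of_lt_of_le hap' (key q' hq0' b1)
  have d3 : |(p : ℝ) / q - p' / q'| < (q : ℝ) ^ (-2.4 : ℝ) + (q' : ℝ) ^ (-2.4 : ℝ) := by
    have e : (p : ℝ) / q - p' / q' = (π - p' / q') - (π - p / q) := by ring
    rw [e]
    refine lt_of_le_of_lt (abs_sub _ _) ?_
    linarith
  have d4 : (1 : ℝ) ≤ |(p : ℝ) * q' - p' * q| := by
    have hne : (p : ℤ) * q' - p' * q ≠ 0 := by
      intro h0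
      have h0' : p * q' = p' * q := by
        have : (p : ℤ) * q' = p' * q := by linarith
        exact_mod_cast this
      have h5 : p ∣ p' := hcop.dvd_of_dvd_mul_right ⟨q', by rw [← h0']⟩
      have h6 : p' ∣ p := hcop'.dvd_of_dvd_mul_right ⟨q, by rw [h0']⟩
      exact absurd (Nat.dvd_antisymm h5 h6) (by omega)
    have e : (p : ℝ) * q' - p' * q = (((p : ℤ) * q' - p' * q : ℤ) : ℝ) := by push_cast; ring
    rw [e, ← Int.cast_abs]
    exact_mod_cast Int.one_le_abs hne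
  have d5 : (1 : ℝ) ≤ q * q' * ((q : ℝ) ^ (-2.4 : ℝ) + (q' : ℝ) ^ (-2.4 : ℝ)) := by
    have e : |(p : ℝ) * q' - p' * q| = q * q' * |(p : ℝ) / q - p' / q'| := by
      rw [← abs_of_pos (mul_pos hq0 hq0'), ← abs_mul]
      congr 1
      field_simp
    rw [e] at d4
    exact d4.trans (mul_le_mul_of_nonneg_left d3.le (by positivity))
  have e1 : (q : ℝ) * q' * ((q : ℝ) ^ (-2.4 : ℝ) + (q' : ℝ) ^ (-2.4 : ℝ)) =
      q' * (q : ℝ) ^ (-1.4 : ℝ) + q * (q' : ℝ) ^ (-1.4 : ℝ) := by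
    have f1 : (q : ℝ) ^ (-1.4 : ℝ) = q * (q : ℝ) ^ (-2.4 : ℝ) := by
      nth_rewrite 2 [← Real.rpow_one (q : ℝ)]
      rw [← Real.rpow_add hq0]; norm_num
    have f2 : (q' : ℝ) ^ (-1.4 : ℝ) = q' * (q' : ℝ) ^ (-2.4 : ℝ) := by
      nth_rewrite 2 [← Real.rpow_one (q' : ℝ)]
      rw [← Real.rpow_add hq0']; norm_num
    rw [f1, f2]; ring
  rw [e1] at d5
  have g1 : (q' : ℝ) ^ (-1.4 : ℝ) ≤ (q : ℝ) ^ (-1.4 : ℝ) :=
    Real.rpow_le_rpow_of_nonpos hq0 hqq' (by norm_num)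
  have g2 : (q : ℝ) * (q : ℝ) ^ (-1.4 : ℝ) ≤ 1 / 4 := by
    have f1 : (q : ℝ) * (q : ℝ) ^ (-1.4 : ℝ) = (q : ℝ) ^ (-0.4 : ℝ) := by
      nth_rewrite 1 [← Real.rpow_one (q : ℝ)]
      rw [← Real.rpow_add hq0]; norm_num
    have f2 : (q : ℝ) ^ (-0.4 : ℝ) ≤ (q : ℝ) ^ (-0.1 : ℝ) :=
      Real.rpow_le_rpow_of_exponent_le hqone (by norm_num)
    have f3 : (q : ℝ) ^ (-0.1 : ℝ) = ((q : ℝ) ^ (0.1 : ℝ))⁻¹ := Real.rpow_neg hq0.le _
    rw [f1]
    refine f2.trans ?_
    rw [f3, one_div]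
    exact inv_anti₀ (by norm_num) a2
  have g3 : (1 / 2 : ℝ) ≤ q' * (q : ℝ) ^ (-1.4 : ℝ) := by
    have := mul_le_mul_of_nonneg_left g1 hq0.le
    linarith
  have g4 : (q : ℝ) ^ (1.3 : ℝ) * 4 ≤ (q : ℝ) ^ (1.4 : ℝ) := by
    have : (q : ℝ) ^ (1.4 : ℝ) = (q : ℝ) ^ (1.3 : ℝ) * (q : ℝ) ^ (0.1 : ℝ) := by
      rw [← Real.rpow_add hq0]; norm_num
    rw [this]
    exact mul_le_mul_of_nonneg_left a2 (by positivity)
  have g5 : (q : ℝ) ^ (-1.4 : ℝ) * (q : ℝ) ^ (1.4 : ℝ) = 1 := by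
    rw [← Real.rpow_add hq0]; norm_num
  have g6 : (q : ℝ) ^ (1.4 : ℝ) / 2 ≤ q' := by
    have := mul_le_mul_of_nonneg_right g3 (by positivity : (0 : ℝ) ≤ (q : ℝ) ^ (1.4 : ℝ))
    rw [mul_assoc, g5] at this
    linarith
  have g7 : (0 : ℝ) ≤ (q : ℝ) ^ (1.3 : ℝ) := by positivity
  linarith

/-- the numerators with `(log log q) ^ s / q ^ (5 / 2) ≤ |π - p / q| < log q / q ^ (5 / 2)` -/
def Mid (s : ℝ) : Set ℕ :=
  {p | ∃ q : ℕ, Good p q ∧ (Real.log (Real.log q)) ^ s / (q : ℝ) ^ (5 / 2 : ℝ) ≤ |π - p / q|}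

theorem midSum (s : ℝ) (hs : 1 / 2 < s) : Summable (fun p : Mid s => a p) := by
  classical
  obtain ⟨q₀, hq₀3, hq₀l, hgap⟩ := gap
  have hc : 0 < Real.log 1.3 := Real.log_pos (by norm_num)
  -- the large ones
  set W : Set ℕ := {p | ∃ q : ℕ, q₀ ≤ q ∧ Good p q ∧
    (Real.log (Real.log q)) ^ s / (q : ℝ) ^ (5 / 2 : ℝ) ≤ |π - p / q|} with hW
  have hWsum : Summable (fun p : W => a p) := by
    choose q hq hg hb using fun p : W => p.2
    set J : W → ℕ := fun p => ⌊Real.log (Real.log (q p)) / Real.log 1.3⌋₊ with hJ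
    have hlog1 : ∀ p : W, 1 < Real.log (q p) := by
      intro p
      have h1 : (3 : ℝ) ≤ q p := by exact_mod_cast hq₀3.trans (hq p)
      have h2 : Real.exp 1 < 3 := by linarith [Real.exp_one_lt_d9]
      rw [Real.lt_log_iff_exp_lt (by linarith)]
      linarith
    have hlog : ∀ p : W, Real.log 1.3 ≤ Real.log (Real.log (q p)) := by
      intro p
      refine hq₀l.trans ?_
      have h0 : (3 : ℝ) ≤ q₀ := by exact_mod_cast hq₀3
      have h1 : (q₀ : ℝ) ≤ q p := by exact_mod_cast hq p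
      have h2 : Real.exp 1 < 3 := by linarith [Real.exp_one_lt_d9]
      have h3 : 1 < Real.log q₀ := by
        rw [Real.lt_log_iff_exp_lt (by linarith)]
        linarith
      exact Real.log_le_log (by linarith) (Real.log_le_log (by linarith) h1)
    have hlt : ∀ p p' : W, (p : ℕ) < p' → J p < J p' := by
      intro p p' h
      have h1 := hgap p (q p) p' (q p') (hq p) (hg p) (hg p') h
      have hq0 : (0 : ℝ) < q p := by
        have := (hg p).1
        exact_mod_cast this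
      have h2 : 1.3 * Real.log (q p) ≤ Real.log (q p') := by
        have := Real.log_le_log (by positivity) h1
        rwa [Real.log_rpow hq0] at this
      have h3 : Real.log 1.3 + Real.log (Real.log (q p)) ≤ Real.log (Real.log (q p')) := by
        rw [← Real.log_mul (by norm_num) (by linarith [hlog1 p])]
        exact Real.log_le_log (by linarith [hlog1 p]) h2
      have h4 : Real.log (Real.log (q p)) / Real.log 1.3 + 1 ≤
          Real.log (Real.log (q p')) / Real.log 1.3 := by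
        rw [div_add_one hc.ne', div_le_div_iff_of_pos_right hc]
        linarith
      rw [hJ]
      show ⌊Real.log (Real.log (q p)) / Real.log 1.3⌋₊ < ⌊Real.log (Real.log (q p')) / Real.log 1.3⌋₊
      have h5 : 0 ≤ Real.log (Real.log (q p)) / Real.log 1.3 :=
        div_nonneg (hc.le.trans (hlog p)) hc.le
      have h6 := Nat.floor_add_one h5
      have h7 := Nat.floor_le_floor h4
      omega
    have hinj : Function.Injective J := by
      intro p p' h
      rcases lt_trichotomy (p : ℕ) p' with h1 | h1 | h1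
      · exact absurd h (hlt _ _ h1).ne
      · exact Subtype.ext h1
      · exact absurd h (hlt _ _ h1).ne'
    have hF : Summable (fun j : ℕ => 3 / (Real.log 1.3) ^ (2 * s) * (1 / (j : ℝ) ^ (2 * s))) :=
      (Real.summable_one_div_nat_rpow.mpr (by linarith)).mul_left _
    refine Summable.of_nonneg_of_le (fun p => a_nonneg _) ?_ (hF.comp_injective hinj)
    intro p
    simp only [Function.comp]
    have hq0 : (0 : ℝ) < q p := by
      have := (hg p).1
      exact_mod_cast this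
    set ℓ := Real.log (Real.log (q p)) with hℓ
    have hℓ0 : 0 < ℓ := lt_of_lt_of_le hc (hlog p)
    have hJ1 : 1 ≤ J p := by
      apply Nat.le_floor
      rw [Nat.cast_one, le_div_iff₀ hc, one_mul]
      exact hlog p
    have hJ2 : (J p : ℝ) * Real.log 1.3 ≤ ℓ := by
      have := Nat.floor_le (div_nonneg hℓ0.le hc.le : 0 ≤ ℓ / Real.log 1.3)
      rw [le_div_iff₀ hc] at this
      exact this
    -- lower bound for the distance
    have e : |(q p : ℝ) * π - (p : ℕ)| = q p * |π - (p : ℕ) / q p| := by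
      rw [← abs_of_pos hq0, ← abs_mul, abs_of_pos hq0]
      congr 1
      field_simp
    have h2 : ℓ ^ (2 * s) / (q p : ℝ) ^ 3 ≤ |(q p : ℝ) * π - (p : ℕ)| ^ 2 := by
      have h3 : ℓ ^ s / (q p : ℝ) ^ (5 / 2 : ℝ) * q p ≤ |(q p : ℝ) * π - (p : ℕ)| := by
        rw [e, mul_comm]
        exact mul_le_mul_of_nonneg_left (hb p) hq0.le
      refine le_trans (le_of_eq ?_) (pow_le_pow_left₀ (by positivity) h3 2)
      have e1 : ((q p : ℝ) ^ (5 / 2 : ℝ)) ^ 2 = (q p : ℝ) ^ 5 := by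
        rw [← Real.rpow_natCast, ← Real.rpow_mul hq0.le]
        norm_num
      have e2 : (ℓ ^ s) ^ 2 = ℓ ^ (2 * s) := by
        rw [← Real.rpow_natCast, ← Real.rpow_mul hℓ0.le, mul_comm]
        norm_num
      rw [mul_pow, div_pow, e1, e2]
      field_simp
    have hlin := (hg p).lin
    have hsin : 1 / 3 * |(q p : ℝ) * π - (p : ℕ)| ^ 2 ≤ Real.sin ((p : ℕ) : ℝ) ^ 2 := by
      have h4 : |((p : ℕ) : ℝ) - q p * π| ≤ π / 2 := by
        rw [abs_sub_comm]
        linarith [pi_gt_three]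
      have h5 := Real.mul_abs_le_abs_sin h4
      rw [Real.sin_sub_nat_mul_pi, abs_mul, abs_pow, abs_neg, abs_one, one_pow, one_mul,
        abs_sub_comm] at h5
      have h6 := pow_le_pow_left₀ (by positivity) h5 2
      rw [sq_abs (Real.sin _), mul_pow, div_pow] at h6
      refine le_trans (mul_le_mul_of_nonneg_right ?_ (by positivity)) h6
      rw [div_le_div_iff₀ (by norm_num) (by positivity)]
      nlinarith [pi_lt_d2, pi_pos]
    have hpq : (q p : ℝ) ≤ ((p : ℕ) : ℝ) := by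
      have h1 : (1 : ℝ) ≤ q p := by exact_mod_cast (hg p).1
      have := (abs_lt.mp hlin).2
      nlinarith [pi_gt_three]
    have hp3 : (q p : ℝ) ^ 3 ≤ ((p : ℕ) : ℝ) ^ 3 := pow_le_pow_left₀ hq0.le hpq 3
    have hl2 : 0 < ℓ ^ (2 * s) := by positivity
    have h7 : ℓ ^ (2 * s) / 3 ≤ ((p : ℕ) : ℝ) ^ 3 * Real.sin ((p : ℕ) : ℝ) ^ 2 := by
      rw [div_le_iff₀ (by positivity)] at h2
      calc ℓ ^ (2 * s) / 3 ≤ (|(q p : ℝ) * π - (p : ℕ)| ^ 2 * (q p : ℝ) ^ 3) / 3 := by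
            linarith
        _ = (q p : ℝ) ^ 3 * (1 / 3 * |(q p : ℝ) * π - (p : ℕ)| ^ 2) := by ring
        _ ≤ ((p : ℕ) : ℝ) ^ 3 * Real.sin ((p : ℕ) : ℝ) ^ 2 :=
            mul_le_mul hp3 hsin (by positivity) (by positivity)
    have h8 : a p ≤ 3 / ℓ ^ (2 * s) := by
      unfold a
      refine (one_div_le_one_div_of_le (by positivity) h7).trans (le_of_eq ?_)
      rw [one_div_div]
    refine h8.trans ?_
    have hJ0 : (0 : ℝ) < J p := by exact_mod_cast hJ1
    have h9 : ((J p : ℝ) * Real.log 1.3) ^ (2 * s) ≤ ℓ ^ (2 * s) :=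
      Real.rpow_le_rpow (by positivity) hJ2 (by linarith)
    rw [Real.mul_rpow hJ0.le hc.le] at h9
    rw [div_mul_div_comm, mul_one, mul_comm ((Real.log 1.3) ^ (2 * s))]
    exact div_le_div_of_nonneg_left (by norm_num) (by positivity) h9
  -- comparison
  have h1 : Summable (Set.indicator W a) := (summable_subtype_iff_indicator).mp hWsum
  refine (summable_subtype_iff_indicator (f := a) (s := Mid s)).mpr ?_
  refine h1.congr_cofinite ?_
  rw [Filter.EventuallyEq, Nat.cofinite_eq_atTop]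
  filter_upwards [eventually_ge_atTop (4 * q₀)] with n hn
  by_cases hnW : n ∈ W
  · have h2 : n ∈ Mid s := by
      obtain ⟨q, _, h3, h4⟩ := hnW
      exact ⟨q, h3, h4⟩
    rw [Set.indicator_of_mem hnW, Set.indicator_of_mem h2]
  · have h2 : n ∉ Mid s := by
      rintro ⟨q, h3, h4⟩
      apply hnW
      refine ⟨q, ?_, h3, h4⟩
      by_contra hcon
      push Not at hcon
      have h5 := (abs_lt.mp h3.lin).1
      have h6 : (4 : ℝ) * q₀ ≤ n := by exact_mod_cast hn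
      have h7 : (q : ℝ) + 1 ≤ q₀ := by exact_mod_cast hcon
      nlinarith [pi_lt_d2]
    rw [Set.indicator_of_notMem hnW, Set.indicator_of_notMem h2]

end Pool.Agent.TH67.FH
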