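import Pool.Agent.TH67.FH.Block

/-! # The reduction of the Flint Hills series to exceptional numerators -/

open Finset Real Filter

namespace Pool.Agent.TH67.FH

/-- the numerators `p` of the reduced fractions `p / q` with
`|π - p / q| < (log q) ^ s / q ^ (5 / 2)` and `Bad q` -/
def Exc (s : ℝ) (Bad : ℕ → Prop) : Set ℕ :=
  {p | ∃ q : ℕ, 1 ≤ q ∧ Nat.Coprime p q ∧
    |π - p / q| < (Real.log q) ^ s / (q : ℝ) ^ (5 / 2 : ℝ) ∧ Bad q}

/-- Summation over the blocks. -/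
theorem sumBlocks (S : Set ℕ) (B : ℕ → ℝ) (hB : Summable B) (hB0 : ∀ i, 0 ≤ B i)
    (h : ∀ i, ∀ T : Finset ℕ, (∀ n ∈ T, n ∈ S) →
      (∀ n ∈ T, 2 ≤ n ∧ 2 ^ i ≤ kk n ∧ kk n < 2 * 2 ^ i) → ∑ n ∈ T, a n ≤ B i) :
    Summable (fun n : S => a n) := by
  classical
  refine summable_of_sum_le (fun n => a_nonneg n) (c := ∑ n ∈ Finset.range 2, a n + ∑' i, B i) ?_
  intro u
  have e : ∑ x ∈ u, a x = ∑ n ∈ u.map (Function.Embedding.subtype _), a n := by
    rw [Finset.sum_map]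
    rfl
  rw [e]
  set v := u.map (Function.Embedding.subtype _) with hv
  have hvS : ∀ n ∈ v, n ∈ S := by
    intro n hn
    rw [hv, Finset.mem_map] at hn
    obtain ⟨x, _, rfl⟩ := hn
    exact x.2
  rw [← Finset.sum_filter_add_sum_filter_not v (fun n => n < 2)]
  refine add_le_add ?_ ?_
  · refine Finset.sum_le_sum_of_subset_of_nonneg ?_ (fun n _ _ => a_nonneg n)
    intro n hn
    exact Finset.mem_range.mpr (Finset.mem_filter.mp hn).2
  · set w := v.filter (fun n => ¬ n < 2) with hw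
    rw [← Finset.sum_fiberwise_of_maps_to (t := w.image (fun n => Nat.log 2 (kk n)))
      (g := fun n => Nat.log 2 (kk n)) (fun n hn => Finset.mem_image_of_mem _ hn)]
    refine le_trans (Finset.sum_le_sum (g := B) ?_) (hB.sum_le_tsum _ fun i _ => hB0 i)
    intro i _
    apply h
    · intro n hn
      exact hvS n (Finset.mem_filter.mp (Finset.mem_filter.mp hn).1).1
    · intro n hn
      obtain ⟨h1, h2⟩ := Finset.mem_filter.mp hn
      have h3 : 2 ≤ n := by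
        have := (Finset.mem_filter.mp h1).2
        omega
      have h4 := kk_pos n h3
      refine ⟨h3, ?_, ?_⟩
      · rw [← h2]
        exact Nat.pow_log_le_self 2 (by omega)
      · have := Nat.lt_pow_succ_log_self (b := 2) (by norm_num) (kk n)
        rw [h2, pow_succ] at this
        omega

/-- The multiples of the good numerators. -/
theorem goodBound (s m : ℝ) (hs : 1 / 2 < s) (hm1 : 1 ≤ m) (hm : m < 5 / 2) (Bad : ℕ → Prop)
    (hBad : ∀ᶠ q : ℕ in atTop, ¬ Bad q → ∀ p : ℤ, (q : ℝ) ^ (-m) ≤ |π - p / q|) :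
    ∃ G : ℕ → ℝ, Summable G ∧ (∀ i, 0 ≤ G i) ∧ ∀ i q p : ℕ, 1 ≤ q → q ≤ 2 * 2 ^ i →
      Nat.Coprime p q → 0 < |(q : ℝ) * π - p| → p ∉ Exc s Bad →
      1 / (((2 : ℝ) ^ i) ^ 3 * |(q : ℝ) * π - p| ^ 2) ≤ G i := by
  obtain ⟨q₁, hq₁⟩ := eventually_atTop.mp hBad
  set q₀ := max q₁ 2 with hq₀
  obtain ⟨r, hr, hrmin⟩ := Finset.exists_min_image (Finset.Icc 1 q₀) d
    ⟨1, Finset.mem_Icc.mpr ⟨le_rfl, by omega⟩⟩
  have hη₀ : 0 < d r := d_pos r (Finset.mem_Icc.mp hr).1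
  refine ⟨fun i => 1 / (d r) ^ 2 * (1 / 8) ^ i +
    2 ^ (2 * m - 2) * ((2 : ℝ) ^ (2 * m - 5)) ^ i +
    8 * 8 ^ (2 * s) * (1 / ((i + 1 : ℕ) : ℝ) ^ (2 * s)) + 2 ^ (2 * s) * (1 / 2) ^ i, ?_, ?_, ?_⟩
  · refine ((Summable.add ?_ ?_).add ?_).add ?_
    · exact (summable_geometric_of_lt_one (by norm_num) (by norm_num)).mul_left _
    · refine (summable_geometric_of_lt_one (by positivity) ?_).mul_left _
      exact Real.rpow_lt_one_of_one_lt_of_neg (by norm_num) (by linarith)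
    · refine Summable.mul_left _ ?_
      have := (summable_nat_add_iff 1).mpr (Real.summable_one_div_nat_rpow.mpr (by linarith : 1 < 2 * s))
      exact this
    · exact (summable_geometric_of_lt_one (by norm_num) (by norm_num)).mul_left _
  · intro i
    positivity
  intro i q p hq hqi hcop hη hp
  have hq0 : (1 : ℝ) ≤ q := by exact_mod_cast hq
  have hqpos : (0 : ℝ) < q := by linarith
  have hX : (0 : ℝ) < 2 ^ i := by positivity
  have hqX : (q : ℝ) ≤ 2 * 2 ^ i := by exact_mod_cast hqi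
  have n1 : 0 ≤ 1 / (d r) ^ 2 * (1 / 8 : ℝ) ^ i := by positivity
  have n2 : 0 ≤ (2 : ℝ) ^ (2 * m - 2) * ((2 : ℝ) ^ (2 * m - 5)) ^ i := by positivity
  have n3 : 0 ≤ 8 * (8 : ℝ) ^ (2 * s) * (1 / ((i + 1 : ℕ) : ℝ) ^ (2 * s)) := by positivity
  have n4 : 0 ≤ (2 : ℝ) ^ (2 * s) * (1 / 2) ^ i := by positivity
  have e8 : ((2 : ℝ) ^ i) ^ 3 = 8 ^ i := by
    rw [← pow_mul, mul_comm, pow_mul]; norm_num
  have hηeq : |(q : ℝ) * π - p| = q * |π - p / q| := by
    rw [← abs_of_pos hqpos, ← abs_mul, abs_of_pos hqpos]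
    congr 1
    field_simp
  -- small denominators
  by_cases hsm : q < q₀
  · have h1 : d r ≤ |(q : ℝ) * π - p| :=
      (hrmin q (Finset.mem_Icc.mpr ⟨hq, hsm.le⟩)).trans (by exact_mod_cast d_le q p)
    have h2 : 1 / (((2 : ℝ) ^ i) ^ 3 * |(q : ℝ) * π - p| ^ 2) ≤ 1 / (d r) ^ 2 * (1 / 8 : ℝ) ^ i := by
      rw [e8, one_div_pow, div_mul_div_comm, one_mul, mul_comm ((d r) ^ 2)]
      refine one_div_le_one_div_of_le (by positivity) ?_
      exact mul_le_mul_of_nonneg_left (pow_le_pow_left₀ hη₀.le h1 2) (by positivity)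
    linarith
  push Not at hsm
  have hq2 : 2 ≤ q := le_trans (le_max_right _ _) hsm
  have hq2' : (2 : ℝ) ≤ q := by exact_mod_cast hq2
  by_cases hb : Bad q
  · -- a bad denominator, the approximation is not too good
    have h1 : (Real.log q) ^ s / (q : ℝ) ^ (5 / 2 : ℝ) ≤ |π - p / q| := by
      by_contra hcon
      push Not at hcon
      exact hp ⟨q, hq, hcop, hcon, hb⟩
    have hl2 : (0.69 : ℝ) ≤ Real.log q := by
      have := Real.log_le_log (by norm_num) hq2'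
      linarith [Real.log_two_gt_d9]
    have hl0 : 0 < Real.log q := by linarith
    have h2 : (Real.log q) ^ (2 * s) / (q : ℝ) ^ 3 ≤ |(q : ℝ) * π - p| ^ 2 := by
      have h3 : (Real.log q) ^ s / (q : ℝ) ^ (5 / 2 : ℝ) * q ≤ |(q : ℝ) * π - p| := by
        rw [hηeq, mul_comm]
        exact mul_le_mul_of_nonneg_left h1 hqpos.le
      refine le_trans (le_of_eq ?_) (pow_le_pow_left₀ (by positivity) h3 2)
      have e1 : ((q : ℝ) ^ (5 / 2 : ℝ)) ^ 2 = (q : ℝ) ^ 5 := by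
        rw [← Real.rpow_natCast, ← Real.rpow_mul hqpos.le]
        norm_num
      have e2 : ((Real.log q) ^ s) ^ 2 = (Real.log q) ^ (2 * s) := by
        rw [← Real.rpow_natCast, ← Real.rpow_mul hl0.le, mul_comm]
        norm_num
      rw [mul_pow, div_pow, e1, e2]
      field_simp
    have h3 : 1 / (((2 : ℝ) ^ i) ^ 3 * |(q : ℝ) * π - p| ^ 2) ≤
        (q : ℝ) ^ 3 / (((2 : ℝ) ^ i) ^ 3 * (Real.log q) ^ (2 * s)) := by
      rw [div_le_div_iff₀ (by positivity) (by positivity), one_mul]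
      rw [div_le_iff₀ (by positivity)] at h2
      calc ((2 : ℝ) ^ i) ^ 3 * (Real.log q) ^ (2 * s) ≤
            ((2 : ℝ) ^ i) ^ 3 * (|(q : ℝ) * π - p| ^ 2 * (q : ℝ) ^ 3) :=
            mul_le_mul_of_nonneg_left h2 (by positivity)
        _ = _ := by ring
    by_cases hc : 2 ^ i ≤ q ^ 2
    · have h4 : (i : ℝ) * Real.log 2 ≤ 2 * Real.log q := by
        have h5 : ((2 : ℝ) ^ i) ≤ (q : ℝ) ^ 2 := by exact_mod_cast hc
        have := Real.log_le_log hX h5
        rwa [Real.log_pow, Real.log_pow, Nat.cast_two] at this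
      have h5 : (((i + 1 : ℕ) : ℝ)) / 8 ≤ Real.log q := by
        push_cast
        have hi0 : (0 : ℝ) ≤ i := Nat.cast_nonneg i
        nlinarith [Real.log_two_gt_d9]
      have h6 : ((((i + 1 : ℕ) : ℝ)) / 8) ^ (2 * s) ≤ (Real.log q) ^ (2 * s) :=
        Real.rpow_le_rpow (by positivity) h5 (by linarith)
      have hi1 : (0 : ℝ) < ((i + 1 : ℕ) : ℝ) := by positivity
      rw [Real.div_rpow hi1.le (by norm_num)] at h6
      have h7 : (q : ℝ) ^ 3 / (((2 : ℝ) ^ i) ^ 3 * (Real.log q) ^ (2 * s)) ≤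
          8 * (8 : ℝ) ^ (2 * s) * (1 / ((i + 1 : ℕ) : ℝ) ^ (2 * s)) := by
        rw [div_le_iff₀ (by positivity)]
        have h8 : (q : ℝ) ^ 3 ≤ 8 * ((2 : ℝ) ^ i) ^ 3 := by
          calc (q : ℝ) ^ 3 ≤ (2 * 2 ^ i) ^ 3 := pow_le_pow_left₀ hqpos.le hqX 3
            _ = _ := by ring
        refine h8.trans ?_
        rw [div_le_iff₀ (by positivity)] at h6
        have hpos : (0 : ℝ) < ((i + 1 : ℕ) : ℝ) ^ (2 * s) := by positivity
        have e : 8 * (8 : ℝ) ^ (2 * s) * (1 / ((i + 1 : ℕ) : ℝ) ^ (2 * s)) *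
            (((2 : ℝ) ^ i) ^ 3 * (Real.log q) ^ (2 * s)) = 8 * ((2 : ℝ) ^ i) ^ 3 *
            ((Real.log q) ^ (2 * s) * 8 ^ (2 * s) / ((i + 1 : ℕ) : ℝ) ^ (2 * s)) := by ring
        rw [e]
        refine le_mul_of_one_le_right (by positivity) ?_
        rw [le_div_iff₀ hpos, one_mul]
        exact h6
      linarith
    · push Not at hc
      have h4 : (1 / 2 : ℝ) ^ (2 * s) ≤ (Real.log q) ^ (2 * s) :=
        Real.rpow_le_rpow (by norm_num) (by linarith) (by linarith)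
      have h5 : (q : ℝ) ^ 3 ≤ 4 ^ i := by
        have h6 : (q : ℝ) ^ 2 ≤ 2 ^ i := by exact_mod_cast hc.le
        calc (q : ℝ) ^ 3 ≤ (q : ℝ) ^ 4 := pow_le_pow_right₀ hq0 (by norm_num)
          _ = ((q : ℝ) ^ 2) ^ 2 := by ring
          _ ≤ (2 ^ i) ^ 2 := pow_le_pow_left₀ (by positivity) h6 2
          _ = 4 ^ i := by rw [← pow_mul, mul_comm, pow_mul]; norm_num
      have h7 : (q : ℝ) ^ 3 / (((2 : ℝ) ^ i) ^ 3 * (Real.log q) ^ (2 * s)) ≤
          (2 : ℝ) ^ (2 * s) * (1 / 2) ^ i := by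
        rw [div_le_iff₀ (by positivity), e8]
        refine h5.trans ?_
        have e : (2 : ℝ) ^ (2 * s) * (1 / 2) ^ i * (8 ^ i * (Real.log q) ^ (2 * s)) =
            4 ^ i * ((2 : ℝ) ^ (2 * s) * (Real.log q) ^ (2 * s)) := by
          have e' : (1 / 2 : ℝ) ^ i * 8 ^ i = 4 ^ i := by rw [← mul_pow]; norm_num
          calc _ = ((1 / 2 : ℝ) ^ i * 8 ^ i) * ((2 : ℝ) ^ (2 * s) * (Real.log q) ^ (2 * s)) := by
                ring
            _ = _ := by rw [e']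
        rw [e]
        refine le_mul_of_one_le_right (by positivity) ?_
        have e2 : (2 : ℝ) ^ (2 * s) * (1 / 2 : ℝ) ^ (2 * s) = 1 := by
          rw [← Real.mul_rpow (by norm_num) (by norm_num)]
          norm_num
        rw [← e2]
        exact mul_le_mul_of_nonneg_left h4 (by positivity)
      linarith
  · have h1 := hq₁ q (le_trans (le_max_left _ _) hsm) hb p
    have h2 : (q : ℝ) ^ (1 - m) ≤ |(q : ℝ) * π - p| := by
      rw [hηeq]
      have e : (q : ℝ) ^ (1 - m) = q * (q : ℝ) ^ (-m) := by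
        rw [sub_eq_add_neg, Real.rpow_add hqpos, Real.rpow_one]
      rw [e]
      exact mul_le_mul_of_nonneg_left h1 hqpos.le
    have h3 : ((2 : ℝ) * 2 ^ i) ^ (2 - 2 * m) ≤ |(q : ℝ) * π - p| ^ 2 := by
      refine le_trans ?_ (pow_le_pow_left₀ (by positivity) h2 2)
      have e : ((q : ℝ) ^ (1 - m)) ^ 2 = (q : ℝ) ^ (2 - 2 * m) := by
        rw [← Real.rpow_natCast ((q : ℝ) ^ (1 - m)) 2, ← Real.rpow_mul hqpos.le]
        congr 1
        push_cast
        ring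
      rw [e]
      exact Real.rpow_le_rpow_of_nonpos hqpos hqX (by linarith)
    have h4 : 1 / (((2 : ℝ) ^ i) ^ 3 * |(q : ℝ) * π - p| ^ 2) ≤
        (2 : ℝ) ^ (2 * m - 2) * ((2 : ℝ) ^ (2 * m - 5)) ^ i := by
      refine (one_div_le_one_div_of_le (by positivity)
        (mul_le_mul_of_nonneg_left h3 (by positivity))).trans (le_of_eq ?_)
      rw [Real.mul_rpow (by norm_num) hX.le]
      have e1 : (2 : ℝ) ^ (2 - 2 * m) = ((2 : ℝ) ^ (2 * m - 2))⁻¹ := by
        rw [← Real.rpow_neg (by norm_num)]; congr 1; ring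
      have e2 : ((2 : ℝ) ^ i) ^ (2 - 2 * m) = (((2 : ℝ) ^ i) ^ (2 * m - 2))⁻¹ := by
        rw [← Real.rpow_neg hX.le]; congr 1; ring
      have e3 : ((2 : ℝ) ^ (2 * m - 5)) ^ i = ((2 : ℝ) ^ i) ^ (2 * m - 2) / ((2 : ℝ) ^ i) ^ 3 := by
        rw [Real.rpow_pow_comm (by norm_num), ← Real.rpow_natCast ((2 : ℝ) ^ i) 3,
          ← Real.rpow_sub hX]
        congr 1
        push_cast; ring
      rw [e1, e2, e3]
      have p1 : (0 : ℝ) < (2 : ℝ) ^ (2 * m - 2) := by positivity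
      have p2 : (0 : ℝ) < ((2 : ℝ) ^ i) ^ (2 * m - 2) := by positivity
      field_simp
    linarith

end Pool.Agent.TH67.FH
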