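import Pool.Agent.TH67.RP.Conv2
import Pool.Agent.TH67.FH.Lac

/-! # The denominators of very good approximations to `π` miss many small primes -/

open Finset Real Filter Pool.Agent.TH67.RP

namespace Pool.Agent.TH67.FH

/-- the admissible parameters -/
def Adm (κ δ : ℝ) : Prop :=
  0 < κ ∧ 0 ≤ δ ∧
    ((6 * (1 + δ) < 8.14 * κ ∧ 11.5 * κ / 6 + δ < 3 / 2) ∨
      (24 * (1 + δ) < 26.89 * κ ∧ 31.65 * κ / 24 + δ < 3 / 2) ∨
      (48 * (1 + δ) < 48.1 * κ ∧ 47.8 * κ / 48 + δ < 3 / 2))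

theorem onePair (κ δ : ℝ) (h : Adm κ δ) : ∃ m : ℝ, 1 ≤ m ∧ m < 5 / 2 ∧
    ∀ᶠ q : ℕ in atTop, (miss ⌊κ * Real.log q⌋₊ q : ℝ) ≤ (q : ℝ) ^ δ →
      ∀ p : ℤ, (q : ℝ) ^ (-m) ≤ |π - p / q| := by
  obtain ⟨hκ, hδ, h | h | h⟩ := h
  · refine ⟨1 + (11.5 * κ / 6 + δ + 3 / 2) / 2, ?_, by linarith [h.2], ?_⟩
    · have : 0 ≤ 11.5 * κ / 6 := by positivity
      linarith
    · exact mainC κ δ _ hκ hδ h.1 (by linarith [h.2])
  · refine ⟨1 + (31.65 * κ / 24 + δ + 3 / 2) / 2, ?_, by linarith [h.2], ?_⟩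
    · have : 0 ≤ 31.65 * κ / 24 := by positivity
      linarith
    · exact mainB κ δ _ hκ hδ h.1 (by linarith [h.2])
  · refine ⟨1 + (47.8 * κ / 48 + δ + 3 / 2) / 2, ?_, by linarith [h.2], ?_⟩
    · have : 0 ≤ 47.8 * κ / 48 := by positivity
      linarith
    · exact mainA κ δ _ hκ hδ h.1 (by linarith [h.2])

theorem manyPairs (P : Finset (ℝ × ℝ)) : (∀ x ∈ P, Adm x.1 x.2) → ∃ m : ℝ, 1 ≤ m ∧ m < 5 / 2 ∧
    ∀ᶠ q : ℕ in atTop,
      ¬ (3 ≤ q ∧ ∀ x ∈ P, (q : ℝ) ^ x.2 < (miss ⌊x.1 * Real.log q⌋₊ q : ℝ)) →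
      ∀ p : ℤ, (q : ℝ) ^ (-m) ≤ |π - p / q| := by
  classical
  induction P using Finset.induction_on with
  | empty =>
    intro _
    refine ⟨2, by norm_num, by norm_num, ?_⟩
    filter_upwards [eventually_ge_atTop 3] with q hq h
    exact absurd ⟨hq, fun x hx => absurd hx (Finset.notMem_empty x)⟩ h
  | insert x P _ ih =>
    intro hP
    obtain ⟨m₁, h1, h2, h3⟩ := ih fun y hy => hP y (Finset.mem_insert_of_mem hy)
    obtain ⟨m₂, h4, h5, h6⟩ := onePair x.1 x.2 (hP x (Finset.mem_insert_self _ _))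
    refine ⟨max m₁ m₂, le_max_of_le_left h1, max_lt h2 h5, ?_⟩
    filter_upwards [h3, h6, eventually_ge_atTop 3] with q hq1 hq2 hq3 hn p
    have hq1' : (1 : ℝ) ≤ q := by exact_mod_cast (by omega : 1 ≤ q)
    by_cases hx : (miss ⌊x.1 * Real.log q⌋₊ q : ℝ) ≤ (q : ℝ) ^ x.2
    · refine le_trans ?_ (hq2 hx p)
      exact Real.rpow_le_rpow_of_exponent_le hq1' (neg_le_neg (le_max_right _ _))
    · refine le_trans ?_ (hq1 ?_ p)
      · exact Real.rpow_le_rpow_of_exponent_le hq1' (neg_le_neg (le_max_left _ _))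
      · rintro ⟨_, h7⟩
        apply hn
        refine ⟨hq3, fun y hy => ?_⟩
        rcases Finset.mem_insert.mp hy with rfl | hy
        · exact not_le.mp hx
        · exact h7 y hy

/-- the exceptional numerators -/
def Ex (s : ℝ) (P : Finset (ℝ × ℝ)) : Set ℕ :=
  {p | ∃ q : ℕ, 3 ≤ q ∧ Nat.Coprime p q ∧
    |π - p / q| < (Real.log (Real.log q)) ^ s / (q : ℝ) ^ (5 / 2 : ℝ) ∧
    ∀ x ∈ P, (q : ℝ) ^ x.2 < (miss ⌊x.1 * Real.log q⌋₊ q : ℝ)}

theorem exc_cases (s : ℝ) (P : Finset (ℝ × ℝ)) (p : ℕ)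
    (hp : p ∈ Exc 1 (fun q => 3 ≤ q ∧ ∀ x ∈ P, (q : ℝ) ^ x.2 < (miss ⌊x.1 * Real.log q⌋₊ q : ℝ))) :
    p ∈ Ex s P ∨ p ∈ Mid s := by
  obtain ⟨q, hq, hcop, hap, hb, hb'⟩ := hp
  rw [Real.rpow_one] at hap
  by_cases h : |π - p / q| < (Real.log (Real.log q)) ^ s / (q : ℝ) ^ (5 / 2 : ℝ)
  · exact Or.inl ⟨q, hb, hcop, h, hb'⟩
  · exact Or.inr ⟨q, ⟨hq, hcop, hap⟩, not_lt.mp h⟩

theorem summable_union (A B : Set ℕ) (hA : Summable (fun p : A => a p))
    (hB : Summable (fun p : B => a p)) : Summable (fun p : (A ∪ B : Set ℕ) => a p) := by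
  have h1 := (summable_subtype_iff_indicator (f := a) (s := A)).mp hA
  have h2 := (summable_subtype_iff_indicator (f := a) (s := B)).mp hB
  refine (summable_subtype_iff_indicator (f := a) (s := A ∪ B)).mpr ?_
  refine Summable.of_nonneg_of_le (fun n => Set.indicator_nonneg (fun n _ => a_nonneg n) n) ?_
    (h1.add h2)
  intro n
  have h3 : 0 ≤ Set.indicator A a n := Set.indicator_nonneg (fun n _ => a_nonneg n) n
  have h4 : 0 ≤ Set.indicator B a n := Set.indicator_nonneg (fun n _ => a_nonneg n) n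
  by_cases hn : n ∈ A ∪ B
  · rw [Set.indicator_of_mem hn]
    rcases hn with h | h
    · rw [Set.indicator_of_mem h]; linarith
    · rw [Set.indicator_of_mem h]; linarith
  · rw [Set.indicator_of_notMem hn]; linarith

theorem flint (s : ℝ) (hs : 1 / 2 < s) (P : Finset (ℝ × ℝ)) (hP : ∀ x ∈ P, Adm x.1 x.2) :
    (Summable a ↔ Summable (fun p : Ex s P => a p)) ∧
    Summable (fun n : {n : ℕ | ∀ p ∈ Ex s P, ¬ p ∣ n} => a n) := by
  obtain ⟨m, hm1, hm2, hm⟩ := manyPairs P hP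
  have hmid := midSum s hs
  refine ⟨⟨fun h => h.subtype _, fun h => ?_⟩, ?_⟩
  · have h1 := general 1 m (by norm_num) hm1 hm2 _ hm Set.univ (Ex s P ∪ Mid s)
      (summable_union _ _ h hmid) (fun n _ q p _ _ _ _ hp => exc_cases s P p hp)
    have h2 := (summable_subtype_iff_indicator (f := a) (s := Set.univ)).mp h1
    rwa [Set.indicator_univ] at h2
  · refine general 1 m (by norm_num) hm1 hm2 _ hm _ (Mid s) hmid ?_
    intro n hn q p _ hcop _ hline hp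
    rcases exc_cases s P p hp with h | h
    · exfalso
      apply hn p h
      exact hcop.dvd_of_dvd_mul_right ⟨kk n, by rw [hline]; ring⟩
    · exact h

end Pool.Agent.TH67.FH
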