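import Pool.Agent.TH67.FH.Main

/-! # The reduction of the Flint Hills series to exceptional numerators, end of the proof -/

open Finset Real Filter

namespace Pool.Agent.TH67.FH

theorem inv_sq_le_a (q p : ℕ) (hq : 1 ≤ q) (hη : 0 < |(q : ℝ) * π - p|)
    (hη2 : |(q : ℝ) * π - p| ≤ 1 / 2) :
    1 / |(q : ℝ) * π - p| ^ 2 ≤ 64 * (q : ℝ) ^ 3 * a p := by
  have hq0 : (1 : ℝ) ≤ q := by exact_mod_cast hq
  have h1 : (p : ℝ) ≤ 4 * q := by
    have := (abs_le.mp hη2).1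
    nlinarith [pi_lt_d2]
  have h2 : (0 : ℝ) < p := by
    have := (abs_le.mp hη2).2
    nlinarith [pi_gt_three]
  have hs0 : Real.sin p ≠ 0 := by
    intro h
    rw [Real.sin_eq_zero_iff] at h
    obtain ⟨n, hn⟩ := h
    have hn0 : n ≠ 0 := by
      rintro rfl
      rw [Int.cast_zero, zero_mul] at hn
      linarith
    have h3 := irrational_pi.intCast_mul hn0
    exact h3 ⟨p, by push_cast; linarith⟩
  have h3 : Real.sin p ^ 2 ≤ |(q : ℝ) * π - p| ^ 2 := by
    have h4 : |Real.sin ((p : ℝ) - q * π)| ≤ |(p : ℝ) - q * π| := Real.abs_sin_le_abs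
    rw [Real.sin_sub_nat_mul_pi, abs_mul, abs_pow, abs_neg, abs_one, one_pow, one_mul,
      abs_sub_comm] at h4
    have := pow_le_pow_left₀ (abs_nonneg _) h4 2
    rwa [sq_abs] at this
  have hs2 : 0 < Real.sin p ^ 2 := by positivity
  have h5 : (p : ℝ) ^ 3 ≤ 64 * (q : ℝ) ^ 3 := by
    calc (p : ℝ) ^ 3 ≤ (4 * q) ^ 3 := pow_le_pow_left₀ h2.le h1 3
      _ = _ := by ring
  unfold a
  rw [mul_one_div, div_le_div_iff₀ (by positivity) (by positivity), one_mul]
  exact mul_le_mul h5 h3 hs2.le (by positivity)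

theorem near_unique (q q' p : ℕ) (h : |(q : ℝ) * π - p| ≤ 1 / 2)
    (h' : |(q' : ℝ) * π - p| ≤ 1 / 2) : q = q' := by
  by_contra hne
  have h1 : |((q : ℝ) - q') * π| ≤ 1 := by
    have e : ((q : ℝ) - q') * π = ((q : ℝ) * π - p) - ((q' : ℝ) * π - p) := by ring
    rw [e]
    refine (abs_sub _ _).trans ?_
    linarith
  have h2 : (1 : ℝ) ≤ |(q : ℝ) - q'| := by
    have e : (q : ℝ) - q' = (((q : ℤ) - q' : ℤ) : ℝ) := by push_cast; ring
    have h10 : ((q : ℤ) - q') ≠ 0 := by omega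
    rw [e, ← Int.cast_abs]
    exact_mod_cast Int.one_le_abs h10
  rw [abs_mul, abs_of_pos pi_pos] at h1
  nlinarith [pi_gt_three]

/-- The exceptional numerators which occur. -/
theorem badSum (E : Set ℕ) (hE : Summable (fun p : E => a p)) (q p : ℕ → ℕ)
    (hq : ∀ i, 1 ≤ q i) (hqi : ∀ i, q i ≤ 2 * 2 ^ i)
    (hη : ∀ i, 0 < |(q i : ℝ) * π - p i|) (hη2 : ∀ i, |(q i : ℝ) * π - p i| ≤ 1 / 2) :
    Summable (Set.indicator {i | p i ∈ E}
      (fun i : ℕ => 1 / (((2 : ℝ) ^ i) ^ 3 * |(q i : ℝ) * π - p i| ^ 2))) := by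
  have hF : Summable (fun z : E × ℕ => a z.1 * (1 / 8 : ℝ) ^ z.2) :=
    hE.mul_of_nonneg (summable_geometric_of_lt_one (by norm_num) (by norm_num))
      (fun p => a_nonneg p) (fun j => by positivity)
  have hL : ∀ i, Nat.log 2 (q i) ≤ i + 1 := by
    intro i
    have h1 : q i ≤ 2 ^ (i + 1) := by rw [pow_succ, mul_comm]; exact hqi i
    calc Nat.log 2 (q i) ≤ Nat.log 2 (2 ^ (i + 1)) := Nat.log_mono_right h1
      _ = i + 1 := Nat.log_pow (by norm_num) _
  have hinj : Function.Injective (fun i : {i | p i ∈ E} =>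
      ((⟨p i, i.2⟩ : E), (i : ℕ) + 1 - Nat.log 2 (q i))) := by
    intro i j h
    simp only [Prod.mk.injEq, Subtype.mk.injEq] at h
    obtain ⟨h1, h2⟩ := h
    have h3 : q i = q j := by
      apply near_unique _ _ (p i) (hη2 i)
      rw [h1]
      exact hη2 j
    have h4 := hL i
    have h5 := hL j
    rw [h3] at h2 h4
    apply Subtype.ext
    omega
  have h1 := (hF.comp_injective hinj).mul_left (64 * 64 : ℝ)
  rw [← summable_subtype_iff_indicator]
  refine Summable.of_nonneg_of_le (fun i => by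
    have := hη i
    simp only [Function.comp]
    positivity) ?_ h1
  intro i
  simp only [Function.comp]
  set L := Nat.log 2 (q (i : ℕ)) with hLdef
  have h2 : q (i : ℕ) < 2 ^ (L + 1) := Nat.lt_pow_succ_log_self (by norm_num) _
  have h3 : (q (i : ℕ) : ℝ) ^ 3 ≤ 8 ^ (L + 1) := by
    have : (q (i : ℕ) : ℝ) ≤ 2 ^ (L + 1) := by exact_mod_cast h2.le
    calc (q (i : ℕ) : ℝ) ^ 3 ≤ (2 ^ (L + 1)) ^ 3 := pow_le_pow_left₀ (by positivity) this 3
      _ = 8 ^ (L + 1) := by rw [← pow_mul, mul_comm, pow_mul]; norm_num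
  have h4 := hL i
  have h5 : (8 : ℝ) ^ ((i : ℕ) + 1) = 8 ^ ((i : ℕ) + 1 - L) * 8 ^ L := by
    rw [← pow_add]
    congr 1
    omega
  have h6 := inv_sq_le_a (q i) (p i) (hq i) (hη i) (hη2 i)
  have e8 : ((2 : ℝ) ^ (i : ℕ)) ^ 3 = 8 ^ (i : ℕ) := by
    rw [← pow_mul, mul_comm, pow_mul]; norm_num
  have ha := a_nonneg (p i)
  rw [e8]
  calc 1 / ((8 : ℝ) ^ (i : ℕ) * |(q (i : ℕ) : ℝ) * π - p i| ^ 2)
      = 1 / (8 : ℝ) ^ (i : ℕ) * (1 / |(q (i : ℕ) : ℝ) * π - p i| ^ 2) := by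
        rw [div_mul_div_comm, one_mul]
    _ ≤ 1 / (8 : ℝ) ^ (i : ℕ) * (64 * (q (i : ℕ) : ℝ) ^ 3 * a (p i)) :=
        mul_le_mul_of_nonneg_left h6 (by positivity)
    _ ≤ 1 / (8 : ℝ) ^ (i : ℕ) * (64 * 8 ^ (L + 1) * a (p i)) := by
        refine mul_le_mul_of_nonneg_left ?_ (by positivity)
        refine mul_le_mul_of_nonneg_right ?_ ha
        linarith
    _ = 64 * 64 * (a (p i) * (1 / 8) ^ ((i : ℕ) + 1 - L)) := by
        have h7 : (8 : ℝ) ^ (i : ℕ) = 8 ^ ((i : ℕ) + 1 - L) * 8 ^ L / 8 := by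
          rw [← h5, pow_succ]; ring
        rw [h7, one_div_pow, pow_succ]
        field_simp
        ring

/-- The terms `a n`, `n ∈ S`, have a finite sum if this is so for the terms `a p`, `p ∈ E'`, and
all the exceptional fractions `p / q` on whose lines there are points of `S` have numerators in
`E'`. -/
theorem general (s m : ℝ) (hs : 1 / 2 < s) (hm1 : 1 ≤ m) (hm : m < 5 / 2) (Bad : ℕ → Prop)
    (hBad : ∀ᶠ q : ℕ in atTop, ¬ Bad q → ∀ p : ℤ, (q : ℝ) ^ (-m) ≤ |π - p / q|)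
    (S E' : Set ℕ) (hE' : Summable (fun p : E' => a p))
    (hline : ∀ n ∈ S, ∀ q p : ℕ, 1 ≤ q → Nat.Coprime p q → |(q : ℝ) * π - p| ≤ 1 / 2 →
      n * q = kk n * p → p ∈ Exc s Bad → p ∈ E') :
    Summable (fun n : S => a n) := by
  have hZ := Z_nonneg
  obtain ⟨G, hG, hG0, hGb⟩ := goodBound s m hs hm1 hm Bad hBad
  choose q p hq hqi hcop hη hη2 hT using fun i : ℕ => block (2 ^ i) Nat.one_le_two_pow
  have hB1 : Summable (fun i : ℕ => 49152 * Z / ((2 ^ i : ℕ) : ℝ)) := by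
    have := (summable_geometric_of_lt_one (by norm_num : (0 : ℝ) ≤ 1 / 2) (by norm_num)).mul_left
      (49152 * Z)
    refine this.congr fun i => ?_
    push_cast
    rw [one_div_pow]
    ring
  have hbad := badSum E' hE' q p hq hqi hη hη2
  have hI : ∀ i, 0 ≤ Set.indicator {i | p i ∈ E'}
      (fun i : ℕ => 1 / (((2 : ℝ) ^ i) ^ 3 * |(q i : ℝ) * π - p i| ^ 2)) i :=
    fun i => Set.indicator_nonneg (fun i _ => by positivity) i
  refine sumBlocks S (fun i => 49152 * Z / ((2 ^ i : ℕ) : ℝ) + 3 * Z * (G i +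
    Set.indicator {i | p i ∈ E'}
      (fun i : ℕ => 1 / (((2 : ℝ) ^ i) ^ 3 * |(q i : ℝ) * π - p i| ^ 2)) i))
    (hB1.add ((hG.add hbad).mul_left _)) ?_ ?_
  · intro i
    have h1 := hI i
    have h2 := hG0 i
    positivity
  · intro i T hTS hT'
    have h1 := hI i
    have h2 := hG0 i
    by_cases hd : ∀ n ∈ T, n * q i ≠ kk n * p i
    · exact ((hT i T hT').2 hd).trans (le_add_of_nonneg_right (by positivity))
    · push Not at hd
      obtain ⟨n, hn, hpn⟩ := hd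
      refine ((hT i T hT').1).trans ?_
      refine add_le_add le_rfl ?_
      have e : 3 * Z / (((2 ^ i : ℕ) : ℝ) ^ 3 * |(q i : ℝ) * π - p i| ^ 2) =
          3 * Z * (1 / (((2 : ℝ) ^ i) ^ 3 * |(q i : ℝ) * π - p i| ^ 2)) := by
        push_cast
        ring
      rw [e]
      refine mul_le_mul_of_nonneg_left ?_ (by positivity)
      by_cases hp : p i ∈ Exc s Bad
      · have hp' : p i ∈ E' := hline n (hTS n hn) (q i) (p i) (hq i) (hcop i) (hη2 i) hpn hp
        rw [Set.indicator_of_mem (s := {i | p i ∈ E'}) hp']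
        exact le_add_of_nonneg_left (hG0 i)
      · exact (hGb i (q i) (p i) (hq i) (hqi i) (hcop i) (hη i) hp).trans
          (le_add_of_nonneg_right h1)

end Pool.Agent.TH67.FH
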